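import Mathlib

open Filter Topology

namespace Pool.Agent.H45.LatticeWave

/-- The functions `φ_k`: `φ_0 = 1` and
`φ_{k+1}(t) = ∫_0^t φ_k(s)² exp (-∫_s^t φ_k(u) du) ds`. -/
noncomputable def phi : ℕ → ℝ → ℝ
  | 0 => fun _ => 1
  | k + 1 => fun t => ∫ s in (0:ℝ)..t, (phi k s) ^ 2 * Real.exp (-∫ u in s..t, phi k u)

/-- `W` is a wave profile with delay `τ`: a `C¹` nondecreasing function `ℝ → [0,1]` with limits
`0` at `-∞` and `1` at `+∞` and `W'(s) = W(s+τ) (W(s+τ) - W(s))`. -/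
structure IsWaveProfile (τ : ℝ) (W : ℝ → ℝ) : Prop where
  contDiff : ContDiff ℝ 1 W
  mono : Monotone W
  nonneg : ∀ s, 0 ≤ W s
  le_one : ∀ s, W s ≤ 1
  tendsto_atBot : Tendsto W atBot (𝓝 0)
  tendsto_atTop : Tendsto W atTop (𝓝 1)
  eqn : ∀ s, deriv W s = W (s + τ) * (W (s + τ) - W s)

/-- `φ_k` converge to the travelling wave with delay `τ > 0`, profile `W` and shifts `m_k`:
`m_{k+1} - m_k → τ` and `sup_{t ≥ 0} |φ_k(t) - W(t - m_k)| → 0`. -/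
structure ConvergesToWave (τ : ℝ) (W : ℝ → ℝ) (m : ℕ → ℝ) : Prop where
  tau_pos : 0 < τ
  profile : IsWaveProfile τ W
  shifts : Tendsto (fun k => m (k + 1) - m k) atTop (𝓝 τ)
  conv : ∀ ε : ℝ, 0 < ε → ∀ᶠ k in atTop, ∀ t : ℝ, 0 ≤ t → |phi k t - W (t - m k)| ≤ ε

/-- The tail function `D` is exponential. -/
def ExpTail (D : ℝ → ℝ) : Prop :=
  ∃ a b C : ℝ, 0 < a ∧ a ≤ b ∧ 1 ≤ C ∧
    ∀ r : ℝ, 0 ≤ r → C⁻¹ * Real.exp (-b * r) ≤ D r ∧ D r ≤ C * Real.exp (-a * r)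

/-- The tail function `D` is double exponential. -/
def DoubleExpTail (D : ℝ → ℝ) : Prop :=
  ∃ a b C : ℝ, 0 < a ∧ a ≤ b ∧ 1 ≤ C ∧
    ∀ r : ℝ, 0 ≤ r → Real.exp (-C * Real.exp (b * r)) ≤ D r ∧
      D r ≤ Real.exp (-C⁻¹ * Real.exp (a * r))

end Pool.Agent.H45.LatticeWave
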