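import Pool.Agent.H45.LatticeWave.Defs

open Set MeasureTheory Filter Topology intervalIntegral

namespace Pool.Agent.H45.LatticeWave

lemma phi_zero (t : ℝ) : phi 0 t = 1 := rfl

lemma phi_succ (k : ℕ) (t : ℝ) :
    phi (k + 1) t = ∫ s in (0:ℝ)..t, (phi k s) ^ 2 * Real.exp (-∫ u in s..t, phi k u) := rfl

/-- primitive of `φ_k` -/
noncomputable def P (k : ℕ) (t : ℝ) : ℝ := ∫ s in (0:ℝ)..t, phi k s

lemma phi_succ_of_cont {k : ℕ} (hc : Continuous (phi k)) (t : ℝ) :
    phi (k + 1) t = Real.exp (-P k t) * ∫ s in (0:ℝ)..t, (phi k s) ^ 2 * Real.exp (P k s) := by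
  rw [phi_succ, ← intervalIntegral.integral_const_mul]
  apply intervalIntegral.integral_congr
  intro s _
  simp only
  have h : ∫ u in s..t, phi k u = P k t - P k s := by
    unfold P
    rw [integral_interval_sub_left (hc.intervalIntegrable _ _) (hc.intervalIntegrable _ _)]
  rw [h]
  have : Real.exp (-(P k t - P k s)) = Real.exp (-P k t) * Real.exp (P k s) := by
    rw [← Real.exp_add]; congr 1; ring
  rw [this]; ring

lemma hasDerivAt_P {k : ℕ} (hc : Continuous (phi k)) (t : ℝ) : HasDerivAt (P k) (phi k t) t :=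
  integral_hasDerivAt_right (hc.intervalIntegrable _ _)
    (hc.stronglyMeasurableAtFilter _ _) hc.continuousAt

lemma continuous_P {k : ℕ} (hc : Continuous (phi k)) : Continuous (P k) :=
  continuous_iff_continuousAt.2 fun t => (hasDerivAt_P hc t).continuousAt

lemma hasDerivAt_phi_aux {k : ℕ} (hc : Continuous (phi k)) (t : ℝ) :
    HasDerivAt (phi (k + 1)) (phi k t * (phi k t - phi (k + 1) t)) t := by
  have hg : Continuous (fun s => (phi k s) ^ 2 * Real.exp (P k s)) :=
    (hc.pow 2).mul (Real.continuous_exp.comp (continuous_P hc))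
  have h1 : HasDerivAt (fun t => ∫ s in (0:ℝ)..t, (phi k s) ^ 2 * Real.exp (P k s))
      ((phi k t) ^ 2 * Real.exp (P k t)) t :=
    integral_hasDerivAt_right (hg.intervalIntegrable _ _)
      (hg.stronglyMeasurableAtFilter _ _) hg.continuousAt
  have h2 : HasDerivAt (fun t => Real.exp (-P k t)) (Real.exp (-P k t) * (-phi k t)) t :=
    (hasDerivAt_P hc t).neg.exp
  have h3 := h2.mul h1
  have h4 : phi (k + 1) = fun t => Real.exp (-P k t) *
      ∫ s in (0:ℝ)..t, (phi k s) ^ 2 * Real.exp (P k s) := funext (phi_succ_of_cont hc)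
  have h5 : phi k t * (phi k t - phi (k + 1) t) =
      Real.exp (-P k t) * (-phi k t) * (∫ s in (0:ℝ)..t, (phi k s) ^ 2 * Real.exp (P k s)) +
      Real.exp (-P k t) * ((phi k t) ^ 2 * Real.exp (P k t)) := by
    rw [phi_succ_of_cont hc t]
    have : Real.exp (-P k t) * Real.exp (P k t) = 1 := by rw [← Real.exp_add]; simp
    linear_combination (-(phi k t)^2) * this
  rw [h5]
  rw [h4]
  exact h3

lemma continuous_phi (k : ℕ) : Continuous (phi k) := by
  induction k with
  | zero => exact continuous_const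
  | succ k ih => exact continuous_iff_continuousAt.2 fun t => (hasDerivAt_phi_aux ih t).continuousAt

lemma hasDerivAt_phi (k : ℕ) (t : ℝ) :
    HasDerivAt (phi (k + 1)) (phi k t * (phi k t - phi (k + 1) t)) t :=
  hasDerivAt_phi_aux (continuous_phi k) t

lemma phi_succ_zero (k : ℕ) : phi (k + 1) 0 = 0 := by
  rw [phi_succ]; simp

/-- monotonicity from the sign of a derivative on `[a, ∞)` -/
lemma monotoneOn_Ici_of_deriv {f f' : ℝ → ℝ} {a : ℝ} (hf : ∀ t, HasDerivAt f (f' t) t)
    (h : ∀ t, a ≤ t → 0 ≤ f' t) : MonotoneOn f (Ici a) := by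
  apply monotoneOn_of_deriv_nonneg (convex_Ici a)
  · exact fun t _ => (hf t).continuousAt.continuousWithinAt
  · exact fun t _ => (hf t).differentiableAt.differentiableWithinAt
  · intro t ht
    rw [interior_Ici] at ht
    rw [(hf t).deriv]
    exact h t (le_of_lt ht)

/-- basic bounds -/
lemma basic (k : ℕ) : (∀ t, 0 ≤ t → 0 ≤ phi k t ∧ phi k t ≤ 1) ∧ MonotoneOn (phi k) (Ici 0) ∧
    (∀ t, 0 ≤ t → 0 ≤ phi (k + 1) t) ∧
    (∀ t, 0 ≤ t → phi (k + 1) t ≤ phi k t * (1 - Real.exp (-P k t))) := by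
  induction k with
  | zero =>
    have hP : ∀ t, P 0 t = t := by
      intro t; unfold P; simp [phi_zero]
    have h1 : ∀ t, 0 ≤ t → 0 ≤ phi 0 t ∧ phi 0 t ≤ 1 := fun t _ => by
      rw [phi_zero]; exact ⟨zero_le_one, le_rfl⟩
    have h2 : MonotoneOn (phi 0) (Ici 0) := fun _ _ _ _ _ => by simp [phi_zero]
    have hval : ∀ t, phi 1 t = 1 - Real.exp (-t) := by
      intro t
      have h := phi_succ_of_cont (continuous_phi 0) t
      rw [zero_add] at h
      rw [h]
      simp only [phi_zero, hP, one_pow, one_mul]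
      rw [integral_exp, mul_sub, ← Real.exp_add, ← Real.exp_add]
      simp
    refine ⟨h1, h2, ?_, ?_⟩
    · intro t ht
      rw [zero_add, hval]
      have : Real.exp (-t) ≤ 1 := by rw [Real.exp_le_one_iff]; linarith
      linarith
    · intro t ht
      rw [zero_add, hval, phi_zero, hP, one_mul]
  | succ k ih =>
    obtain ⟨ih1, ih2, ih3, ih4⟩ := ih
    have hPnn : ∀ t, 0 ≤ t → 0 ≤ P k t := by
      intro t ht
      exact intervalIntegral.integral_nonneg ht fun u hu => (ih1 u hu.1).1
    have hle : ∀ t, 0 ≤ t → phi (k + 1) t ≤ phi k t := by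
      intro t ht
      refine (ih4 t ht).trans ?_
      have h1 := (ih1 t ht).1
      have h2 : 0 < Real.exp (-P k t) := Real.exp_pos _
      nlinarith
    have g1 : ∀ t, 0 ≤ t → 0 ≤ phi (k + 1) t ∧ phi (k + 1) t ≤ 1 := fun t ht =>
      ⟨ih3 t ht, (hle t ht).trans (ih1 t ht).2⟩
    have g2 : MonotoneOn (phi (k + 1)) (Ici 0) := by
      apply monotoneOn_Ici_of_deriv (hasDerivAt_phi k)
      intro t ht
      exact mul_nonneg (ih1 t ht).1 (sub_nonneg.2 (hle t ht))
    refine ⟨g1, g2, ?_, ?_⟩
    · intro t ht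
      rw [phi_succ]
      exact intervalIntegral.integral_nonneg ht fun _ _ => by positivity
    · intro t ht
      rw [phi_succ_of_cont (continuous_phi (k + 1))]
      have hcP := continuous_P (continuous_phi (k + 1))
      have hc1 := continuous_phi (k + 1)
      have hmono : ∫ s in (0:ℝ)..t, (phi (k + 1) s) ^ 2 * Real.exp (P (k + 1) s) ≤
          ∫ s in (0:ℝ)..t, phi (k + 1) t * (phi (k + 1) s * Real.exp (P (k + 1) s)) := by
        apply intervalIntegral.integral_mono_on ht
        · exact ((hc1.pow 2).mul (Real.continuous_exp.comp hcP)).intervalIntegrable _ _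
        · exact (continuous_const.mul (hc1.mul (Real.continuous_exp.comp hcP))).intervalIntegrable _ _
        · intro s hs
          have h1 : phi (k + 1) s ≤ phi (k + 1) t := g2 (mem_Ici.2 hs.1) (mem_Ici.2 ht) hs.2
          have h2 := (g1 s hs.1).1
          have h3 : 0 < Real.exp (P (k + 1) s) := Real.exp_pos _
          have h4 : phi (k + 1) s * (phi (k + 1) s * Real.exp (P (k + 1) s)) ≤
              phi (k + 1) t * (phi (k + 1) s * Real.exp (P (k + 1) s)) :=
            mul_le_mul_of_nonneg_right h1 (by positivity)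
          calc (phi (k + 1) s) ^ 2 * Real.exp (P (k + 1) s)
              = phi (k + 1) s * (phi (k + 1) s * Real.exp (P (k + 1) s)) := by ring
            _ ≤ _ := h4
      have hint : ∫ s in (0:ℝ)..t, phi (k + 1) t * (phi (k + 1) s * Real.exp (P (k + 1) s)) =
          phi (k + 1) t * (Real.exp (P (k + 1) t) - 1) := by
        rw [intervalIntegral.integral_const_mul]
        congr 1
        have h0 : P (k + 1) 0 = 0 := by unfold P; simp
        have h5 := integral_eq_sub_of_hasDerivAt (a := 0) (b := t)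
          (f := fun s => Real.exp (P (k + 1) s))
          (f' := fun s => phi (k + 1) s * Real.exp (P (k + 1) s))
          (fun s _ => by
            have := (hasDerivAt_P hc1 s).exp
            simpa [mul_comm] using this)
          ((hc1.mul (Real.continuous_exp.comp hcP)).intervalIntegrable _ _)
        rw [h5, h0, Real.exp_zero]
      rw [hint] at hmono
      have h6 : 0 < Real.exp (-P (k + 1) t) := Real.exp_pos _
      have h7 : Real.exp (-P (k + 1) t) * Real.exp (P (k + 1) t) = 1 := by
        rw [← Real.exp_add]; simp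
      calc Real.exp (-P (k + 1) t) * ∫ s in (0:ℝ)..t, (phi (k + 1) s) ^ 2 * Real.exp (P (k + 1) s)
          ≤ Real.exp (-P (k + 1) t) * (phi (k + 1) t * (Real.exp (P (k + 1) t) - 1)) :=
            mul_le_mul_of_nonneg_left hmono h6.le
        _ = phi (k + 1) t * (Real.exp (-P (k + 1) t) * Real.exp (P (k + 1) t)
              - Real.exp (-P (k + 1) t)) := by ring
        _ = phi (k + 1) t * (1 - Real.exp (-P (k + 1) t)) := by rw [h7]


lemma phi_nonneg (k : ℕ) {t : ℝ} (ht : 0 ≤ t) : 0 ≤ phi k t := ((basic k).1 t ht).1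

lemma phi_le_one (k : ℕ) {t : ℝ} (ht : 0 ≤ t) : phi k t ≤ 1 := ((basic k).1 t ht).2

lemma phi_monotoneOn (k : ℕ) : MonotoneOn (phi k) (Ici 0) := (basic k).2.1

lemma phi_mono (k : ℕ) {s t : ℝ} (hs : 0 ≤ s) (hst : s ≤ t) : phi k s ≤ phi k t :=
  phi_monotoneOn k (mem_Ici.2 hs) (mem_Ici.2 (hs.trans hst)) hst

lemma P_nonneg (k : ℕ) {t : ℝ} (ht : 0 ≤ t) : 0 ≤ P k t :=
  intervalIntegral.integral_nonneg ht fun _ hu => phi_nonneg k hu.1

lemma phi_succ_le (k : ℕ) {t : ℝ} (ht : 0 ≤ t) : phi (k + 1) t ≤ phi k t := by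
  refine ((basic k).2.2.2 t ht).trans ?_
  have h1 := phi_nonneg k ht
  have h2 : 0 < Real.exp (-P k t) := Real.exp_pos _
  nlinarith

lemma phi_pos (k : ℕ) {t : ℝ} (ht : 0 < t) : 0 < phi k t := by
  induction k generalizing t with
  | zero => rw [phi_zero]; exact one_pos
  | succ k ih =>
    rw [phi_succ_of_cont (continuous_phi k)]
    apply mul_pos (Real.exp_pos _)
    apply intervalIntegral.intervalIntegral_pos_of_pos_on _ _ ht
    · exact (((continuous_phi k).pow 2).mul
        (Real.continuous_exp.comp (continuous_P (continuous_phi k)))).intervalIntegrable _ _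
    · intro s hs
      have := ih hs.1
      positivity

lemma P_pos (k : ℕ) {t : ℝ} (ht : 0 < t) : 0 < P k t := by
  unfold P
  apply intervalIntegral.intervalIntegral_pos_of_pos_on _ _ ht
  · exact (continuous_phi k).intervalIntegrable _ _
  · intro s hs
    exact phi_pos k hs.1

lemma phi_succ_lt (k : ℕ) {t : ℝ} (ht : 0 < t) : phi (k + 1) t < phi k t := by
  refine ((basic k).2.2.2 t ht.le).trans_lt ?_
  have h1 := phi_pos k ht
  have h2 : 0 < Real.exp (-P k t) := Real.exp_pos _
  nlinarith

lemma phi_strictMonoOn (k : ℕ) : StrictMonoOn (phi (k + 1)) (Ici 0) := by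
  apply strictMonoOn_of_deriv_pos (convex_Ici 0) (continuous_phi _).continuousOn
  intro t ht
  rw [interior_Ici] at ht
  rw [(hasDerivAt_phi k t).deriv]
  exact mul_pos (phi_pos k ht) (sub_pos.2 (phi_succ_lt k ht))

lemma phi_lower (k : ℕ) {t0 t : ℝ} (h0 : 0 ≤ t0) (h : t0 ≤ t) :
    phi k t0 * (1 - Real.exp (-(P k t - P k t0))) ≤ phi (k + 1) t := by
  have hmono : MonotoneOn (fun t => (phi (k + 1) t - phi k t0) * Real.exp (P k t)) (Ici t0) := by
    apply monotoneOn_Ici_of_deriv
      (f' := fun t => (phi k t * (phi k t - phi (k + 1) t)) * Real.exp (P k t) +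
        (phi (k + 1) t - phi k t0) * (Real.exp (P k t) * phi k t))
    · intro t
      exact ((hasDerivAt_phi k t).sub_const _).mul (hasDerivAt_P (continuous_phi k) t).exp
    · intro t ht
      have h1 : (phi k t * (phi k t - phi (k + 1) t)) * Real.exp (P k t) +
        (phi (k + 1) t - phi k t0) * (Real.exp (P k t) * phi k t) =
        phi k t * (phi k t - phi k t0) * Real.exp (P k t) := by ring
      rw [h1]
      have h2 := phi_nonneg k (h0.trans ht)
      have h3 := phi_mono k h0 ht
      have h4 : 0 < Real.exp (P k t) := Real.exp_pos _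
      exact mul_nonneg (mul_nonneg h2 (sub_nonneg.2 h3)) h4.le
  have h1 := hmono (mem_Ici.2 le_rfl) (mem_Ici.2 h) h
  simp only at h1
  have h2 := phi_nonneg (k + 1) h0
  have h3 : 0 < Real.exp (P k t0) := Real.exp_pos _
  have h4 : 0 < Real.exp (-P k t) := Real.exp_pos _
  have h5 : Real.exp (P k t) * Real.exp (-P k t) = 1 := by rw [← Real.exp_add]; simp
  have h6 : Real.exp (-(P k t - P k t0)) = Real.exp (P k t0) * Real.exp (-P k t) := by
    rw [← Real.exp_add]; congr 1; ring
  rw [h6]
  have h7 : -phi k t0 * Real.exp (P k t0) ≤ (phi (k + 1) t - phi k t0) * Real.exp (P k t) := by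
    nlinarith
  have h8 := mul_le_mul_of_nonneg_right h7 h4.le
  have h9 : (phi (k + 1) t - phi k t0) * Real.exp (P k t) * Real.exp (-P k t) =
    phi (k + 1) t - phi k t0 := by rw [mul_assoc, h5, mul_one]
  rw [h9] at h8
  linarith

lemma phi_tendsto (k : ℕ) : Tendsto (phi k) atTop (𝓝 1) := by
  induction k with
  | zero =>
    have : phi 0 = fun _ => (1:ℝ) := funext phi_zero
    rw [this]; exact tendsto_const_nhds
  | succ k ih =>
    rw [Metric.tendsto_atTop]
    intro ε hε
    obtain ⟨T0, hT0⟩ := Metric.tendsto_atTop.1 ih (ε/2) (half_pos hε)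
    set t0 := max T0 1 with ht0
    have ht0pos : 0 < t0 := lt_of_lt_of_le one_pos (le_max_right _ _)
    have hc1 := hT0 t0 (le_max_left _ _)
    rw [Real.dist_eq] at hc1
    set c := phi k t0 with hc
    have hcpos : 0 < c := phi_pos k ht0pos
    have hc2 : 1 - ε/2 < c := by
      have := (abs_lt.1 hc1).1
      linarith
    have hexp : Tendsto (fun t => Real.exp (-(c * (t - t0)))) atTop (𝓝 0) := by
      apply Real.tendsto_exp_atBot.comp
      apply tendsto_neg_atTop_atBot.comp
      apply Tendsto.const_mul_atTop hcpos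
      exact tendsto_atTop_add_const_right _ _ tendsto_id
    obtain ⟨T1, hT1⟩ := Metric.tendsto_atTop.1 hexp (ε/2) (half_pos hε)
    refine ⟨max t0 T1, fun t ht => ?_⟩
    have htt0 : t0 ≤ t := (le_max_left _ _).trans ht
    have h1 := phi_lower k ht0pos.le htt0
    have h2 := hT1 t ((le_max_right _ _).trans ht)
    rw [Real.dist_eq, sub_zero, abs_of_pos (Real.exp_pos _)] at h2
    have h3 : c * (t - t0) ≤ P k t - P k t0 := by
      have h4 : P k t - P k t0 = ∫ s in t0..t, phi k s := by
        unfold P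
        rw [integral_interval_sub_left ((continuous_phi k).intervalIntegrable _ _)
          ((continuous_phi k).intervalIntegrable _ _)]
      rw [h4]
      have h5 : ∫ _ in t0..t, c = c * (t - t0) := by
        rw [intervalIntegral.integral_const, smul_eq_mul, mul_comm]
      rw [← h5]
      apply intervalIntegral.integral_mono_on htt0
      · exact continuous_const.intervalIntegrable _ _
      · exact (continuous_phi k).intervalIntegrable _ _
      · intro s hs
        exact phi_mono k ht0pos.le hs.1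
    have h6 : Real.exp (-(P k t - P k t0)) ≤ Real.exp (-(c * (t - t0))) :=
      Real.exp_le_exp.2 (by linarith)
    have h7 : c ≤ 1 := phi_le_one k ht0pos.le
    have h8 : phi (k + 1) t ≤ 1 := phi_le_one _ (ht0pos.le.trans htt0)
    rw [Real.dist_eq, abs_sub_comm, abs_of_nonneg (by linarith)]
    have h9 : 0 < Real.exp (-(P k t - P k t0)) := Real.exp_pos _
    nlinarith


/-- single crossing, one step -/
lemma cross_step (k : ℕ)
    (ih : ∀ h : ℝ, 0 ≤ h → ∀ t1 t2 : ℝ, 0 ≤ t1 → t1 ≤ t2 →
      phi (k + 1) (t1 + h) < phi k t1 → phi (k + 1) (t2 + h) ≤ phi k t2)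
    (h : ℝ) (hh : 0 ≤ h) (t1 t2 : ℝ) (h1 : 0 ≤ t1) (h12 : t1 ≤ t2)
    (hlt : phi (k + 2) (t1 + h) < phi (k + 1) t1) : phi (k + 2) (t2 + h) < phi (k + 1) t2 := by
  set g : ℝ → ℝ := fun t => Real.exp (P k t) * (phi (k + 1) t - phi (k + 2) (t + h)) with hg
  set g' : ℝ → ℝ := fun t => Real.exp (P k t) * ((phi k t - phi (k + 1) (t + h)) *
    (phi k t + phi (k + 1) (t + h) - phi (k + 2) (t + h))) with hg'
  have hder : ∀ t, HasDerivAt g (g' t) t := by
    intro t
    have d1 := (hasDerivAt_P (continuous_phi k) t).exp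
    have d2 := hasDerivAt_phi k t
    have d3 : HasDerivAt (fun t => phi (k + 2) (t + h))
        (phi (k + 1) (t + h) * (phi (k + 1) (t + h) - phi (k + 2) (t + h))) t :=
      (hasDerivAt_phi (k + 1) (t + h)).comp_add_const t h
    have d4 := d1.mul (d2.sub d3)
    have e : g' t = Real.exp (P k t) * phi k t * (phi (k + 1) t - phi (k + 2) (t + h)) +
      Real.exp (P k t) * (phi k t * (phi k t - phi (k + 1) t) -
        phi (k + 1) (t + h) * (phi (k + 1) (t + h) - phi (k + 2) (t + h))) := by
      rw [hg']; ring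
    rw [e]
    exact d4
  have hfac : ∀ t, 0 ≤ t → 0 ≤ phi k t + phi (k + 1) (t + h) - phi (k + 2) (t + h) := by
    intro t ht
    have := phi_nonneg k ht
    have := phi_succ_le (k + 1) (show 0 ≤ t + h by linarith)
    linarith
  -- there is t0 ≤ t1 with u > v
  have hex : ∃ t0, 0 ≤ t0 ∧ t0 ≤ t1 ∧ phi (k + 1) (t0 + h) < phi k t0 := by
    by_contra hcon
    push Not at hcon
    have hanti : AntitoneOn g (Icc 0 t1) := by
      apply antitoneOn_of_deriv_nonpos (convex_Icc 0 t1)
      · exact fun t _ => (hder t).continuousAt.continuousWithinAt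
      · exact fun t _ => (hder t).differentiableAt.differentiableWithinAt
      · intro t ht
        rw [interior_Icc] at ht
        rw [(hder t).deriv]
        have h3 := hcon t ht.1.le ht.2.le
        have h4 := hfac t ht.1.le
        have h5 : (phi k t - phi (k + 1) (t + h)) *
          (phi k t + phi (k + 1) (t + h) - phi (k + 2) (t + h)) ≤ 0 :=
          mul_nonpos_of_nonpos_of_nonneg (by linarith) h4
        exact mul_nonpos_of_nonneg_of_nonpos (Real.exp_pos _).le h5
    have h6 := hanti (left_mem_Icc.2 h1) (right_mem_Icc.2 h1) h1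
    have h7 : g 0 ≤ 0 := by
      have : g 0 = Real.exp (P k 0) * (phi (k + 1) 0 - phi (k + 2) (0 + h)) := rfl
      rw [this, phi_succ_zero]
      have h8 := phi_nonneg (k + 2) (show 0 ≤ 0 + h by linarith)
      exact mul_nonpos_of_nonneg_of_nonpos (Real.exp_pos _).le (by linarith)
    have h9 : 0 < g t1 := mul_pos (Real.exp_pos _) (sub_pos.2 hlt)
    linarith
  obtain ⟨t0, ht0, ht01, hlt0⟩ := hex
  have hmono : MonotoneOn g (Ici t0) := by
    apply monotoneOn_Ici_of_deriv hder
    intro t ht
    have h3 := ih h hh t0 t ht0 ht hlt0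
    have h4 := hfac t (ht0.trans ht)
    exact mul_nonneg (Real.exp_pos _).le (mul_nonneg (sub_nonneg.2 h3) h4)
  have h5 := hmono (mem_Ici.2 ht01) (mem_Ici.2 (ht01.trans h12)) h12
  have h6 : 0 < g t1 := mul_pos (Real.exp_pos _) (sub_pos.2 hlt)
  have h7 : 0 < Real.exp (P k t2) * (phi (k + 1) t2 - phi (k + 2) (t2 + h)) := lt_of_lt_of_le h6 h5
  have h8 := (mul_pos_iff_of_pos_left (Real.exp_pos _)).1 h7
  linarith

lemma cross_weak (k : ℕ) : ∀ h : ℝ, 0 ≤ h → ∀ t1 t2 : ℝ, 0 ≤ t1 → t1 ≤ t2 →
    phi (k + 1) (t1 + h) < phi k t1 → phi (k + 1) (t2 + h) ≤ phi k t2 := by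
  induction k with
  | zero =>
    intro h hh t1 t2 h1 h12 _
    rw [phi_zero]
    exact phi_le_one _ (by linarith)
  | succ k ih =>
    intro h hh t1 t2 h1 h12 hlt
    exact (cross_step k ih h hh t1 t2 h1 h12 hlt).le

/-- strict single crossing -/
lemma cross (k : ℕ) {h t1 t2 : ℝ} (hh : 0 ≤ h) (h1 : 0 ≤ t1) (h12 : t1 ≤ t2)
    (hlt : phi (k + 2) (t1 + h) < phi (k + 1) t1) : phi (k + 2) (t2 + h) < phi (k + 1) t2 :=
  cross_step k (cross_weak k) h hh t1 t2 h1 h12 hlt

/-! ### Hitting times -/

lemma exists_hit (k : ℕ) {x : ℝ} (h0 : 0 < x) (h1 : x < 1) :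
    ∃ t, 0 ≤ t ∧ phi (k + 1) t = x := by
  obtain ⟨T, hT⟩ := Metric.tendsto_atTop.1 (phi_tendsto (k + 1)) (1 - x) (by linarith)
  have hT1 := hT (max T 0) (le_max_left _ _)
  rw [Real.dist_eq] at hT1
  have h2 : x ≤ phi (k + 1) (max T 0) := by
    have := (abs_lt.1 hT1).1
    linarith
  have h3 : phi (k + 1) 0 ≤ x := by rw [phi_succ_zero]; exact h0.le
  obtain ⟨t, ht, htx⟩ := intermediate_value_Icc (le_max_right T 0)
    (continuous_phi (k + 1)).continuousOn ⟨h3, h2⟩
  exact ⟨t, ht.1, htx⟩

open Classical in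
/-- the time at which `φ_{k+1}` hits the level `x` -/
noncomputable def hit (k : ℕ) (x : ℝ) : ℝ :=
  if h : ∃ t, 0 ≤ t ∧ phi (k + 1) t = x then h.choose else 0

lemma hit_spec (k : ℕ) {x : ℝ} (h0 : 0 < x) (h1 : x < 1) :
    0 ≤ hit k x ∧ phi (k + 1) (hit k x) = x := by
  unfold hit
  rw [dif_pos (exists_hit k h0 h1)]
  exact (exists_hit k h0 h1).choose_spec

lemma hit_pos (k : ℕ) {x : ℝ} (h0 : 0 < x) (h1 : x < 1) : 0 < hit k x := by
  obtain ⟨h2, h3⟩ := hit_spec k h0 h1
  rcases eq_or_lt_of_le h2 with h | h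
  · rw [← h, phi_succ_zero] at h3; linarith
  · exact h

lemma phi_hit (k : ℕ) {x : ℝ} (h0 : 0 < x) (h1 : x < 1) : phi (k + 1) (hit k x) = x :=
  (hit_spec k h0 h1).2

lemma phi_lt_iff (k : ℕ) {x t : ℝ} (h0 : 0 < x) (h1 : x < 1) (ht : 0 ≤ t) :
    phi (k + 1) t < x ↔ t < hit k x := by
  obtain ⟨h2, h3⟩ := hit_spec k h0 h1
  conv_lhs => rw [← h3]
  exact (phi_strictMonoOn k).lt_iff_lt (mem_Ici.2 ht) (mem_Ici.2 h2)

lemma lt_phi_iff (k : ℕ) {x t : ℝ} (h0 : 0 < x) (h1 : x < 1) (ht : 0 ≤ t) :
    x < phi (k + 1) t ↔ hit k x < t := by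
  obtain ⟨h2, h3⟩ := hit_spec k h0 h1
  conv_lhs => rw [← h3]
  exact (phi_strictMonoOn k).lt_iff_lt (mem_Ici.2 h2) (mem_Ici.2 ht)

lemma hit_eq_of_phi (k : ℕ) {t : ℝ} (ht : 0 < t) (h1 : phi (k + 1) t < 1) :
    hit k (phi (k + 1) t) = t := by
  have h0 : 0 < phi (k + 1) t := phi_pos _ ht
  obtain ⟨h2, h3⟩ := hit_spec k h0 h1
  exact (phi_strictMonoOn k).injOn (mem_Ici.2 h2) (mem_Ici.2 ht.le) h3

lemma phi_succ_lt_one (k : ℕ) {t : ℝ} (ht : 0 ≤ t) : phi (k + 1) t < 1 := by
  have h1 := phi_strictMonoOn k (mem_Ici.2 ht) (mem_Ici.2 (show 0 ≤ t + 1 by linarith))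
    (by linarith)
  exact h1.trans_le (phi_le_one _ (by linarith))

lemma hit_strictMono (k : ℕ) {x y : ℝ} (hx : 0 < x) (hxy : x < y) (hy : y < 1) :
    hit k x < hit k y := by
  rw [← phi_lt_iff k (hx.trans hxy) hy (hit_spec k hx (hxy.trans hy)).1,
    phi_hit k hx (hxy.trans hy)]
  exact hxy

lemma hit_mono (k : ℕ) {x y : ℝ} (hx : 0 < x) (hxy : x ≤ y) (hy : y < 1) :
    hit k x ≤ hit k y := by
  rcases eq_or_lt_of_le hxy with h | h
  · rw [h]
  · exact (hit_strictMono k hx h hy).le

/-- the delay at level `x` -/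
noncomputable def delay (k : ℕ) (x : ℝ) : ℝ := hit (k + 1) x - hit k x

lemma delay_pos (k : ℕ) {x : ℝ} (h0 : 0 < x) (h1 : x < 1) : 0 < delay k x := by
  unfold delay
  rw [sub_pos, ← phi_lt_iff (k + 1) h0 h1 (hit_spec k h0 h1).1]
  have := phi_succ_lt (k + 1) (hit_pos k h0 h1)
  rwa [phi_hit k h0 h1] at this

lemma delay_mono (k : ℕ) {x y : ℝ} (hx : 0 < x) (hxy : x ≤ y) (hy : y < 1) :
    delay k x ≤ delay k y := by
  rcases eq_or_lt_of_le hxy with h | hlt
  · rw [h]
  by_contra hcon
  push Not at hcon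
  obtain ⟨h, hh1, hh2⟩ := exists_between hcon
  have hx1 : x < 1 := hlt.trans hy
  have hy0 : 0 < y := hx.trans hlt
  have hpos : 0 < h := (delay_pos k hy0 hy).trans hh1
  have h1 : phi (k + 2) (hit k x + h) < phi (k + 1) (hit k x) := by
    rw [phi_hit k hx hx1, phi_lt_iff (k + 1) hx hx1 (by have := hit_pos k hx hx1; linarith)]
    unfold delay at hh2
    linarith
  have h2 := cross k hpos.le (hit_pos k hx hx1).le (hit_mono k hx hxy hy) h1
  rw [phi_hit k hy0 hy, phi_lt_iff (k + 1) hy0 hy (by have := hit_pos k hy0 hy; linarith)] at h2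
  unfold delay at hh1
  linarith

lemma hit_diff_mono (k : ℕ) {x y : ℝ} (hx : 0 < x) (hxy : x ≤ y) (hy : y < 1) :
    hit k y - hit k x ≤ hit (k + 1) y - hit (k + 1) x := by
  have := delay_mono k hx hxy hy
  unfold delay at this
  linarith

lemma hit_diff_mono' {x y : ℝ} (hx : 0 < x) (hxy : x ≤ y) (hy : y < 1) :
    Monotone (fun k => hit k y - hit k x) :=
  monotone_nat_of_le_succ fun k => hit_diff_mono k hx hxy hy

/-! ### The key inequality -/

lemma lagged_ge (k : ℕ) {s t : ℝ} (hs : 0 < s) (ht : 0 ≤ t) (hts : t ≤ s) :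
    phi (k + 1) t ≤ phi (k + 2) (t + delay k (phi (k + 1) s)) := by
  have hs1 := phi_succ_lt_one k hs.le
  have hs0 := phi_pos (k + 1) hs
  have hd := delay_pos k hs0 hs1
  rcases eq_or_lt_of_le ht with h | hpos
  · rw [← h, phi_succ_zero]
    exact phi_nonneg _ (by linarith)
  · have ht1 := phi_succ_lt_one k ht
    have ht0 := phi_pos (k + 1) hpos
    have h1 : delay k (phi (k + 1) t) ≤ delay k (phi (k + 1) s) :=
      delay_mono k ht0 (phi_mono _ ht hts) hs1
    have h2 : hit (k + 1) (phi (k + 1) t) = t + delay k (phi (k + 1) t) := by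
      unfold delay
      rw [hit_eq_of_phi k hpos ht1]; ring
    by_contra hcon
    push Not at hcon
    rw [phi_lt_iff (k + 1) ht0 ht1 (by linarith)] at hcon
    linarith

lemma lagged_le (k : ℕ) {s t : ℝ} (hs : 0 < s) (hst : s ≤ t) :
    phi (k + 2) (t + delay k (phi (k + 1) s)) ≤ phi (k + 1) t := by
  have hpos : 0 < t := lt_of_lt_of_le hs hst
  have hs1 := phi_succ_lt_one k hs.le
  have hs0 := phi_pos (k + 1) hs
  have hd := delay_pos k hs0 hs1
  have ht1 := phi_succ_lt_one k hpos.le
  have ht0 := phi_pos (k + 1) hpos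
  have h1 : delay k (phi (k + 1) s) ≤ delay k (phi (k + 1) t) :=
    delay_mono k hs0 (phi_mono _ hs.le hst) ht1
  have h2 : hit (k + 1) (phi (k + 1) t) = t + delay k (phi (k + 1) t) := by
    unfold delay
    rw [hit_eq_of_phi k hpos ht1]; ring
  by_contra hcon
  push Not at hcon
  rw [lt_phi_iff (k + 1) ht0 ht1 (by linarith)] at hcon
  linarith

lemma ii (k : ℕ) (a b : ℝ) : IntervalIntegrable (phi k) volume a b :=
  (continuous_phi k).intervalIntegrable _ _

lemma ii_sub (k : ℕ) (a b : ℝ) :
    IntervalIntegrable (fun t => phi k t - phi (k + 1) t) volume a b :=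
  ((continuous_phi k).sub (continuous_phi (k + 1))).intervalIntegrable _ _

lemma ii_mul_sub (k : ℕ) (a b : ℝ) :
    IntervalIntegrable (fun t => phi k t * (phi k t - phi (k + 1) t)) volume a b :=
  ((continuous_phi k).mul ((continuous_phi k).sub (continuous_phi (k + 1)))).intervalIntegrable _ _

/-- energy identity -/
lemma energy (k : ℕ) (a b : ℝ) :
    ∫ t in a..b, phi k t * (phi k t - phi (k + 1) t) = phi (k + 1) b - phi (k + 1) a :=
  integral_eq_sub_of_hasDerivAt (fun t _ => hasDerivAt_phi k t) (ii_mul_sub k a b)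

/-- left area bound -/
lemma left_area (k : ℕ) {s : ℝ} (hs : 0 < s) :
    ∫ t in (0:ℝ)..s, (phi (k + 1) t - phi (k + 2) t) ≤
      delay k (phi (k + 1) s) * phi (k + 1) s := by
  set d := delay k (phi (k + 1) s) with hd
  have hs1 := phi_succ_lt_one k hs.le
  have hs0 := phi_pos (k + 1) hs
  have hdpos : 0 < d := delay_pos k hs0 hs1
  rw [intervalIntegral.integral_sub (ii _ _ _) (ii _ _ _)]
  rcases le_total d s with hds | hsd
  · have h1 : ∫ t in (0:ℝ)..(s - d), phi (k + 1) t ≤ ∫ t in (0:ℝ)..s, phi (k + 2) t := by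
      have h2 : ∫ t in (0:ℝ)..(s - d), phi (k + 1) t ≤
          ∫ t in (0:ℝ)..(s - d), phi (k + 2) (t + d) := by
        apply intervalIntegral.integral_mono_on (by linarith) (ii _ _ _)
        · exact ((continuous_phi (k + 2)).comp (continuous_add_const d)).intervalIntegrable _ _
        · intro t ht
          exact lagged_ge k hs ht.1 (by linarith [ht.2])
      rw [intervalIntegral.integral_comp_add_right (fun t => phi (k + 2) t) d] at h2
      rw [zero_add, sub_add_cancel] at h2
      have h3 : ∫ t in (0:ℝ)..s, phi (k + 2) t =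
          (∫ t in (0:ℝ)..d, phi (k + 2) t) + ∫ t in d..s, phi (k + 2) t :=
        (integral_add_adjacent_intervals (ii _ _ _) (ii _ _ _)).symm
      have h4 : 0 ≤ ∫ t in (0:ℝ)..d, phi (k + 2) t :=
        intervalIntegral.integral_nonneg hdpos.le fun t ht => phi_nonneg _ ht.1
      linarith
    have h5 : ∫ t in (0:ℝ)..s, phi (k + 1) t =
        (∫ t in (0:ℝ)..(s - d), phi (k + 1) t) + ∫ t in (s - d)..s, phi (k + 1) t :=
      (integral_add_adjacent_intervals (ii _ _ _) (ii _ _ _)).symm
    have h6 : ∫ t in (s - d)..s, phi (k + 1) t ≤ ∫ _ in (s - d)..s, phi (k + 1) s := by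
      apply intervalIntegral.integral_mono_on (by linarith) (ii _ _ _)
        (continuous_const.intervalIntegrable _ _)
      intro t ht
      exact phi_mono _ (by linarith [ht.1]) ht.2
    rw [intervalIntegral.integral_const, smul_eq_mul] at h6
    have h7 : (s - (s - d)) * phi (k + 1) s = d * phi (k + 1) s := by ring
    linarith
  · have h1 : ∫ t in (0:ℝ)..s, phi (k + 1) t ≤ ∫ _ in (0:ℝ)..s, phi (k + 1) s := by
      apply intervalIntegral.integral_mono_on hs.le (ii _ _ _)
        (continuous_const.intervalIntegrable _ _)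
      intro t ht
      exact phi_mono _ ht.1 ht.2
    rw [intervalIntegral.integral_const, smul_eq_mul, sub_zero] at h1
    have h2 : 0 ≤ ∫ t in (0:ℝ)..s, phi (k + 2) t :=
      intervalIntegral.integral_nonneg hs.le fun t ht => phi_nonneg _ ht.1
    have h3 : s * phi (k + 1) s ≤ d * phi (k + 1) s := mul_le_mul_of_nonneg_right hsd hs0.le
    linarith

/-- right area bound -/
lemma right_area (k : ℕ) {s N : ℝ} (hs : 0 < s) (hN : s ≤ N) :
    delay k (phi (k + 1) s) * (phi (k + 1) N - phi (k + 1) s) ≤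
      ∫ t in s..(N + delay k (phi (k + 1) s)), (phi (k + 1) t - phi (k + 2) t) := by
  set d := delay k (phi (k + 1) s) with hd
  have hs1 := phi_succ_lt_one k hs.le
  have hs0 := phi_pos (k + 1) hs
  have hdpos : 0 < d := delay_pos k hs0 hs1
  rw [intervalIntegral.integral_sub (ii _ _ _) (ii _ _ _)]
  have h1 : ∫ t in s..(N + d), phi (k + 2) t =
      (∫ t in s..(s + d), phi (k + 2) t) + ∫ t in (s + d)..(N + d), phi (k + 2) t :=
    (integral_add_adjacent_intervals (ii _ _ _) (ii _ _ _)).symm
  have h2 : ∫ t in s..(s + d), phi (k + 2) t ≤ ∫ _ in s..(s + d), phi (k + 1) s := by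
    apply intervalIntegral.integral_mono_on (by linarith) (ii _ _ _)
      (continuous_const.intervalIntegrable _ _)
    intro t ht
    have h3 := lagged_le k hs (le_refl s)
    exact (phi_mono (k + 2) (hs.le.trans ht.1) ht.2).trans h3
  rw [intervalIntegral.integral_const, smul_eq_mul] at h2
  have h4 : ∫ t in (s + d)..(N + d), phi (k + 2) t ≤ ∫ t in s..N, phi (k + 1) t := by
    have h5 := intervalIntegral.integral_comp_add_right (a := s) (b := N)
      (fun t => phi (k + 2) t) d
    rw [← h5]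
    apply intervalIntegral.integral_mono_on hN _ (ii _ _ _)
    · intro t ht
      exact lagged_le k hs ht.1
    · exact ((continuous_phi (k + 2)).comp (continuous_add_const d)).intervalIntegrable _ _
  have h6 : ∫ t in s..(N + d), phi (k + 1) t =
      (∫ t in s..N, phi (k + 1) t) + ∫ t in N..(N + d), phi (k + 1) t :=
    (integral_add_adjacent_intervals (ii _ _ _) (ii _ _ _)).symm
  have h7 : ∫ _ in N..(N + d), phi (k + 1) N ≤ ∫ t in N..(N + d), phi (k + 1) t := by
    apply intervalIntegral.integral_mono_on (by linarith)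
      (continuous_const.intervalIntegrable _ _) (ii _ _ _)
    intro t ht
    exact phi_mono _ (by linarith) ht.1
  rw [intervalIntegral.integral_const, smul_eq_mul] at h7
  have h8 : (N + d - N) * phi (k + 1) N = d * phi (k + 1) N := by ring
  have h9 : (s + d - s) * phi (k + 1) s = d * phi (k + 1) s := by ring
  have h10 : d * (phi (k + 1) N - phi (k + 1) s) = d * phi (k + 1) N - d * phi (k + 1) s := by ring
  linarith

/-- upper bound for the delay -/
lemma delay_upper (k : ℕ) {s : ℝ} (hs : 0 < s) :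
    phi (k + 1) s * (delay k (phi (k + 1) s) * (1 - phi (k + 1) s)) ≤ 1 - phi (k + 2) s := by
  set d := delay k (phi (k + 1) s) with hd
  have hs1 := phi_succ_lt_one k hs.le
  have hs0 := phi_pos (k + 1) hs
  have hdpos : 0 < d := delay_pos k hs0 hs1
  have key : ∀ N, s ≤ N →
      phi (k + 1) s * (d * (phi (k + 1) N - phi (k + 1) s)) ≤ 1 - phi (k + 2) s := by
    intro N hN
    have h1 := right_area k hs hN
    rw [← hd] at h1
    have h2 : phi (k + 1) s * ∫ t in s..(N + d), (phi (k + 1) t - phi (k + 2) t) ≤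
        ∫ t in s..(N + d), phi (k + 1) t * (phi (k + 1) t - phi (k + 2) t) := by
      rw [← intervalIntegral.integral_const_mul]
      apply intervalIntegral.integral_mono_on (by linarith)
      · exact (ii_sub (k + 1) _ _).const_mul _
      · exact ii_mul_sub (k + 1) _ _
      · intro t ht
        have h3 : phi (k + 1) s ≤ phi (k + 1) t := phi_mono _ hs.le ht.1
        have h4 := phi_succ_le (k + 1) (hs.le.trans ht.1)
        exact mul_le_mul_of_nonneg_right h3 (by linarith)
    have h5 : ∫ t in s..(N + d), phi (k + 1) t * (phi (k + 1) t - phi (k + 2) t) =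
      phi (k + 2) (N + d) - phi (k + 2) s := energy (k + 1) s (N + d)
    have h6 : phi (k + 2) (N + d) ≤ 1 := phi_le_one _ (by linarith)
    have h7 := mul_le_mul_of_nonneg_left h1 hs0.le
    linarith
  have hlim : Tendsto (fun N => phi (k + 1) s * (d * (phi (k + 1) N - phi (k + 1) s))) atTop
      (𝓝 (phi (k + 1) s * (d * (1 - phi (k + 1) s)))) :=
    (((phi_tendsto (k + 1)).sub_const _).const_mul _).const_mul _
  exact le_of_tendsto hlim (eventually_atTop.2 ⟨s, key⟩)

/-- the excess `κ_s` -/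
noncomputable def excess (k : ℕ) (s : ℝ) : ℝ :=
  ∫ t in (0:ℝ)..s, (phi (k + 1) s - phi (k + 1) t) * (phi (k + 1) t - phi (k + 2) t)

lemma excess_eq (k : ℕ) (s : ℝ) : excess k s =
    phi (k + 1) s * (∫ t in (0:ℝ)..s, (phi (k + 1) t - phi (k + 2) t)) - phi (k + 2) s := by
  have h1 := energy (k + 1) 0 s
  rw [phi_succ_zero, sub_zero] at h1
  unfold excess
  rw [← h1, ← intervalIntegral.integral_const_mul, ← intervalIntegral.integral_sub]
  · apply intervalIntegral.integral_congr
    intro t _
    simp only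
    ring
  · exact (ii_sub (k + 1) _ _).const_mul _
  · exact ii_mul_sub (k + 1) _ _

lemma key_ineq (k : ℕ) {s : ℝ} (hs : 0 < s) :
    excess k s * (1 - phi (k + 1) s) ≤ phi (k + 1) s - phi (k + 2) s := by
  set d := delay k (phi (k + 1) s) with hd
  have hs1 := phi_succ_lt_one k hs.le
  have hs0 := phi_pos (k + 1) hs
  have h1 := left_area k hs
  have h2 := delay_upper k hs
  rw [← hd] at h1 h2
  have h3 := excess_eq k s
  have h4 := mul_le_mul_of_nonneg_left h1 hs0.le
  -- (c0 + κ) ≤ c1² d
  have h5 : phi (k + 2) s + excess k s ≤ phi (k + 1) s * (d * phi (k + 1) s) := by linarith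
  have h6 : 0 < 1 - phi (k + 1) s := by linarith
  have h7 := mul_le_mul_of_nonneg_right h5 h6.le
  have h8 := mul_le_mul_of_nonneg_left h2 hs0.le
  nlinarith

/-- lower bound for the delay -/
lemma delay_lower (k : ℕ) {s : ℝ} (hs : 0 < s) :
    phi (k + 2) s + excess k s ≤
      phi (k + 1) s * (delay k (phi (k + 1) s) * phi (k + 1) s) := by
  have h1 := left_area k hs
  have h3 := excess_eq k s
  have h4 := mul_le_mul_of_nonneg_left h1 (phi_pos (k + 1) hs).le
  linarith


/-! ### Uniform bounds -/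

lemma excess_lower (k : ℕ) {s s' : ℝ} (hs' : 0 ≤ s') (hss : s' ≤ s)
    (h : phi (k + 1) s' ≤ phi (k + 1) s / 2) :
    phi (k + 1) s / 2 * phi (k + 2) s' ≤ excess k s := by
  have hs : 0 ≤ s := hs'.trans hss
  have hint : ∀ a b : ℝ, IntervalIntegrable
      (fun t => (phi (k + 1) s - phi (k + 1) t) * (phi (k + 1) t - phi (k + 2) t)) volume a b :=
    fun a b => ((continuous_const.sub (continuous_phi (k + 1))).mul
      ((continuous_phi (k + 1)).sub (continuous_phi (k + 2)))).intervalIntegrable _ _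
  have h1 : excess k s = (∫ t in (0:ℝ)..s',
      (phi (k + 1) s - phi (k + 1) t) * (phi (k + 1) t - phi (k + 2) t)) +
      ∫ t in s'..s, (phi (k + 1) s - phi (k + 1) t) * (phi (k + 1) t - phi (k + 2) t) :=
    (integral_add_adjacent_intervals (hint _ _) (hint _ _)).symm
  have h2 : 0 ≤ ∫ t in s'..s,
      (phi (k + 1) s - phi (k + 1) t) * (phi (k + 1) t - phi (k + 2) t) := by
    apply intervalIntegral.integral_nonneg hss
    intro t ht
    have h3 := phi_mono (k + 1) (hs'.trans ht.1) ht.2
    have h4 := phi_succ_le (k + 1) (hs'.trans ht.1)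
    exact mul_nonneg (by linarith) (by linarith)
  have h3 : ∫ t in (0:ℝ)..s', phi (k + 1) s / 2 * (phi (k + 1) t * (phi (k + 1) t - phi (k + 2) t))
      ≤ ∫ t in (0:ℝ)..s',
        (phi (k + 1) s - phi (k + 1) t) * (phi (k + 1) t - phi (k + 2) t) := by
    apply intervalIntegral.integral_mono_on hs' ((ii_mul_sub (k + 1) _ _).const_mul _) (hint _ _)
    intro t ht
    have h4 := phi_mono (k + 1) ht.1 ht.2
    have h5 := phi_succ_le (k + 1) ht.1
    have h6 := phi_nonneg (k + 1) ht.1
    have h7 := phi_le_one (k + 1) ht.1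
    have h8 := phi_nonneg (k + 1) hs
    have h9 : phi (k + 1) s / 2 * phi (k + 1) t ≤ phi (k + 1) s - phi (k + 1) t := by nlinarith
    have h10 : 0 ≤ phi (k + 1) t - phi (k + 2) t := by linarith
    calc phi (k + 1) s / 2 * (phi (k + 1) t * (phi (k + 1) t - phi (k + 2) t))
        = phi (k + 1) s / 2 * phi (k + 1) t * (phi (k + 1) t - phi (k + 2) t) := by ring
      _ ≤ _ := mul_le_mul_of_nonneg_right h9 h10
  rw [intervalIntegral.integral_const_mul] at h3
  have h11 := energy (k + 1) 0 s'
  rw [phi_succ_zero, sub_zero] at h11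
  rw [h11] at h3
  rw [h1]
  linarith

/-- constant -/
noncomputable def beta (a : ℝ) : ℝ :=
  (a/4) ^ 2 * ((hit 0 (a/2) - hit 0 (a/4)) * Real.exp (-(hit 0 (a/2) - hit 0 (a/4))))

lemma beta_pos {a : ℝ} (ha : 0 < a) (ha1 : a ≤ 1) : 0 < beta a := by
  unfold beta
  have := hit_strictMono 0 (show 0 < a/4 by linarith) (show a/4 < a/2 by linarith) (by linarith)
  have h2 : 0 < hit 0 (a/2) - hit 0 (a/4) := by linarith
  positivity

lemma phi2_lower (k : ℕ) {a : ℝ} (ha : 0 < a) (ha1 : a ≤ 1) :
    beta a ≤ phi (k + 2) (hit k (a/2)) := by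
  set s := hit k (a/2) with hs
  set r := hit k (a/4) with hr
  set d := hit 0 (a/2) - hit 0 (a/4) with hd
  have hd0 : 0 < d := by
    have := hit_strictMono 0 (show 0 < a/4 by linarith) (show a/4 < a/2 by linarith) (by linarith)
    linarith
  have h1 : d ≤ s - r := hit_diff_mono' (show 0 < a/4 by linarith) (show a/4 ≤ a/2 by linarith)
    (by linarith) (Nat.zero_le k)
  have hr0 : 0 < r := hit_pos k (by linarith) (by linarith)
  have hs0 : 0 < s := hit_pos k (by linarith) (by linarith)
  have hrv : phi (k + 1) r = a/4 := phi_hit k (by linarith) (by linarith)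
  have hc1 := continuous_phi (k + 1)
  rw [phi_succ_of_cont (continuous_phi (k + 1))]
  have hg : Continuous (fun u => phi (k + 1) u ^ 2 * Real.exp (P (k + 1) u)) :=
    (hc1.pow 2).mul (Real.continuous_exp.comp (continuous_P hc1))
  have h2 : ∫ u in (0:ℝ)..s, phi (k + 1) u ^ 2 * Real.exp (P (k + 1) u) =
      (∫ u in (0:ℝ)..(s - d), phi (k + 1) u ^ 2 * Real.exp (P (k + 1) u)) +
      ∫ u in (s - d)..s, phi (k + 1) u ^ 2 * Real.exp (P (k + 1) u) :=
    (integral_add_adjacent_intervals (hg.intervalIntegrable _ _) (hg.intervalIntegrable _ _)).symm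
  have h3 : 0 ≤ ∫ u in (0:ℝ)..(s - d), phi (k + 1) u ^ 2 * Real.exp (P (k + 1) u) :=
    intervalIntegral.integral_nonneg (by linarith) fun u _ => by positivity
  have h4 : ∫ _ in (s - d)..s, (a/4) ^ 2 * Real.exp (P (k + 1) s - d) ≤
      ∫ u in (s - d)..s, phi (k + 1) u ^ 2 * Real.exp (P (k + 1) u) := by
    apply intervalIntegral.integral_mono_on (by linarith) (continuous_const.intervalIntegrable _ _)
      (hg.intervalIntegrable _ _)
    intro u hu
    have h5 : a/4 ≤ phi (k + 1) u := by
      rw [← hrv]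
      exact phi_mono _ hr0.le (by linarith [hu.1])
    have h6 : P (k + 1) s - d ≤ P (k + 1) u := by
      have h7 : P (k + 1) s - P (k + 1) u = ∫ v in u..s, phi (k + 1) v := by
        unfold P
        rw [integral_interval_sub_left (ii _ _ _) (ii _ _ _)]
      have h8 : ∫ v in u..s, phi (k + 1) v ≤ ∫ _ in u..s, (1:ℝ) := by
        apply intervalIntegral.integral_mono_on hu.2 (ii _ _ _)
          (continuous_const.intervalIntegrable _ _)
        intro v hv
        exact phi_le_one _ (by linarith [hu.1, hv.1])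
      rw [intervalIntegral.integral_const, smul_eq_mul, mul_one] at h8
      linarith [hu.1]
    have h9 : (a/4) ^ 2 ≤ phi (k + 1) u ^ 2 := by
      apply pow_le_pow_left₀ (by linarith) h5
    exact mul_le_mul h9 (Real.exp_le_exp.2 h6) (Real.exp_pos _).le (by positivity)
  rw [intervalIntegral.integral_const, smul_eq_mul] at h4
  have h10 : 0 < Real.exp (-P (k + 1) s) := Real.exp_pos _
  have h11 : Real.exp (-P (k + 1) s) * ((s - (s - d)) * ((a/4) ^ 2 * Real.exp (P (k + 1) s - d)))
      = (a/4) ^ 2 * (d * Real.exp (-d)) := by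
    have h12 : Real.exp (-P (k + 1) s) * Real.exp (P (k + 1) s - d) = Real.exp (-d) := by
      rw [← Real.exp_add]; congr 1; ring
    calc _ = (a/4) ^ 2 * (d * (Real.exp (-P (k + 1) s) * Real.exp (P (k + 1) s - d))) := by ring
      _ = _ := by rw [h12]
  have h13 : (s - (s - d)) * ((a/4) ^ 2 * Real.exp (P (k + 1) s - d)) ≤
    ∫ u in (0:ℝ)..s, phi (k + 1) u ^ 2 * Real.exp (P (k + 1) u) := by rw [h2]; linarith
  have h14 := mul_le_mul_of_nonneg_left h13 h10.le
  rw [h11] at h14
  exact h14

lemma excess_ge (k : ℕ) {a s : ℝ} (ha : 0 < a) (ha1 : a < 1) (hs : 0 < s)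
    (h : a ≤ phi (k + 1) s) : a / 2 * beta a ≤ excess k s := by
  have h1 : hit k (a/2) ≤ s := by
    by_contra hcon
    push Not at hcon
    rw [← phi_lt_iff k (by linarith) (by linarith) hs.le] at hcon
    linarith
  have h2 : 0 ≤ hit k (a/2) := (hit_spec k (by linarith) (by linarith)).1
  have h3 : phi (k + 1) (hit k (a/2)) = a/2 := phi_hit k (by linarith) (by linarith)
  have h4 := excess_lower k h2 h1 (by rw [h3]; linarith)
  have h5 := phi2_lower k ha ha1.le
  have h6 := beta_pos ha ha1.le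
  refine le_trans ?_ h4
  exact mul_le_mul (by linarith) h5 h6.le (by linarith)

lemma gap_ge (k : ℕ) {a b s : ℝ} (ha : 0 < a) (ha1 : a < 1) (hs : 0 < s)
    (h1 : a ≤ phi (k + 1) s) (h2 : phi (k + 1) s ≤ b) (hb : b < 1) :
    a / 2 * beta a * (1 - b) ≤ phi (k + 1) s - phi (k + 2) s := by
  have h3 := excess_ge k ha ha1 hs h1
  have h4 := key_ineq k hs
  have h5 := beta_pos ha ha1.le
  refine le_trans ?_ h4
  exact mul_le_mul h3 (by linarith) (by linarith) (le_trans (by positivity) h3)

/-- **Tightness**: the time spent between two levels is bounded uniformly in `k`. -/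
lemma tight (k : ℕ) {a b : ℝ} (ha : 0 < a) (hab : a ≤ b) (hb : b < 1) :
    hit k b - hit k a ≤ 1 / (a * (a / 2 * beta a * (1 - b))) := by
  have ha1 : a < 1 := lt_of_le_of_lt hab hb
  have hb0 : 0 < b := lt_of_lt_of_le ha hab
  set η := a / 2 * beta a * (1 - b) with hη
  have hη0 : 0 < η := by
    have := beta_pos ha ha1.le
    have : 0 < 1 - b := by linarith
    positivity
  have h1 : hit k a ≤ hit k b := hit_mono k ha hab hb
  have ht0 := hit_pos k ha ha1
  have h2 := energy (k + 1) (hit k a) (hit k b)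
  have h3 : ∫ _ in (hit k a)..(hit k b), a * η ≤
      ∫ t in (hit k a)..(hit k b), phi (k + 1) t * (phi (k + 1) t - phi (k + 2) t) := by
    apply intervalIntegral.integral_mono_on h1 (continuous_const.intervalIntegrable _ _)
      (ii_mul_sub (k + 1) _ _)
    intro t ht
    have h4 : a ≤ phi (k + 1) t := by
      rw [← phi_hit k ha ha1]
      exact phi_mono _ ht0.le ht.1
    have h5 : phi (k + 1) t ≤ b := by
      rw [← phi_hit k hb0 hb]
      exact phi_mono _ (ht0.le.trans ht.1) ht.2
    have h6 := gap_ge k ha ha1 (ht0.trans_le ht.1) h4 h5 hb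
    exact mul_le_mul h4 h6 hη0.le (ha.le.trans h4)
  rw [intervalIntegral.integral_const, smul_eq_mul] at h3
  have h7 : phi (k + 2) (hit k b) ≤ 1 := phi_le_one _ (hit_pos k hb0 hb).le
  have h8 : 0 ≤ phi (k + 2) (hit k a) := phi_nonneg _ ht0.le
  rw [le_div_iff₀ (by positivity)]
  have h9 : ∫ t in (hit k a)..(hit k b), phi (k + 1) t * (phi (k + 1) t - phi (k + 2) t) =
    phi (k + 2) (hit k b) - phi (k + 2) (hit k a) := h2
  linarith

/-- constant bounding the delays at level `1/2` from below -/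
noncomputable def cc : ℝ := beta (1/2)

lemma cc_pos : 0 < cc := beta_pos (by norm_num) (by norm_num)

lemma delay_half_ge (k : ℕ) : cc ≤ delay k (1/2) := by
  have hs := hit_pos k (x := 1/2) (by norm_num) (by norm_num)
  have h1 := delay_lower k hs
  rw [phi_hit k (by norm_num) (by norm_num)] at h1
  have h2 := excess_ge k (a := 1/2) (by norm_num) (by norm_num) hs
    (by rw [phi_hit k (by norm_num) (by norm_num)])
  have h3 := phi_nonneg (k + 2) hs.le
  unfold cc
  linarith

lemma delay_half_le (k : ℕ) : delay k (1/2) ≤ 4 := by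
  have hs := hit_pos k (x := 1/2) (by norm_num) (by norm_num)
  have h1 := delay_upper k hs
  rw [phi_hit k (by norm_num) (by norm_num)] at h1
  have h3 := phi_nonneg (k + 2) hs.le
  linarith

/-- the position of the front -/
noncomputable def pos (k : ℕ) : ℝ := hit k (1/2)

lemma pos_ge (k : ℕ) : k * cc ≤ pos k := by
  induction k with
  | zero =>
    have := hit_pos 0 (x := 1/2) (by norm_num) (by norm_num)
    unfold pos
    push_cast
    linarith
  | succ k ih =>
    have h1 := delay_half_ge k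
    unfold delay at h1
    unfold pos at ih ⊢
    push_cast
    linarith

lemma pos_tendsto : Tendsto pos atTop atTop := by
  apply tendsto_atTop_mono pos_ge
  exact Tendsto.atTop_mul_const cc_pos tendsto_natCast_atTop_atTop

/-! ### The limit profile -/

lemma exists_lim {x : ℝ} (h0 : 0 < x) (h1 : x < 1) :
    ∃ l, Tendsto (fun k => hit k x - pos k) atTop (𝓝 l) := by
  rcases le_total (1/2) x with h | h
  · have hm := hit_diff_mono' (show (0:ℝ) < 1/2 by norm_num) h h1
    have hb : BddAbove (range fun k => hit k x - hit k (1/2)) := by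
      refine ⟨1 / (1/2 * (1/2 / 2 * beta (1/2) * (1 - x))), ?_⟩
      rintro _ ⟨k, rfl⟩
      exact tight k (by norm_num) h h1
    exact ⟨_, tendsto_atTop_ciSup hm hb⟩
  · have hm := hit_diff_mono' h0 h (show (1/2 : ℝ) < 1 by norm_num)
    have hb : BddAbove (range fun k => hit k (1/2) - hit k x) := by
      refine ⟨1 / (x * (x / 2 * beta x * (1 - 1/2))), ?_⟩
      rintro _ ⟨k, rfl⟩
      exact tight k h0 h (by norm_num)
    refine ⟨_, ((tendsto_atTop_ciSup hm hb).neg).congr fun k => ?_⟩
    unfold pos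
    ring

/-- the inverse of the limit profile -/
noncomputable def gl (x : ℝ) : ℝ := limUnder atTop (fun k => hit k x - pos k)

lemma gl_tendsto {x : ℝ} (h0 : 0 < x) (h1 : x < 1) :
    Tendsto (fun k => hit k x - pos k) atTop (𝓝 (gl x)) :=
  tendsto_nhds_limUnder (exists_lim h0 h1)

lemma gl_strictMono {x y : ℝ} (hx : 0 < x) (hxy : x < y) (hy : y < 1) : gl x < gl y := by
  have h1 := gl_tendsto hx (hxy.trans hy)
  have h2 := gl_tendsto (hx.trans hxy) hy
  have h3 : hit 0 y - hit 0 x ≤ gl y - gl x := by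
    apply ge_of_tendsto (h2.sub h1)
    refine Eventually.of_forall fun k => ?_
    have := hit_diff_mono' hx hxy.le hy (Nat.zero_le k)
    simp only at this
    linarith
  have h4 := hit_strictMono 0 hx hxy hy
  linarith

/-- the limit profile -/
noncomputable def W (s : ℝ) : ℝ := sSup (insert 0 {x | 0 < x ∧ x < 1 ∧ gl x ≤ s})

lemma W_bdd (s : ℝ) : BddAbove (insert 0 {x | 0 < x ∧ x < 1 ∧ gl x ≤ s}) := by
  refine ⟨1, ?_⟩
  rintro x (hx | hx)
  · rw [hx]; exact zero_le_one
  · exact hx.2.1.le

lemma W_nonneg (s : ℝ) : 0 ≤ W s := le_csSup (W_bdd s) (mem_insert _ _)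

lemma W_le_one (s : ℝ) : W s ≤ 1 := by
  apply csSup_le ⟨0, mem_insert _ _⟩
  rintro x (hx | hx)
  · rw [hx]; exact zero_le_one
  · exact hx.2.1.le

lemma le_W {x s : ℝ} (h0 : 0 < x) (h1 : x < 1) (h : gl x ≤ s) : x ≤ W s :=
  le_csSup (W_bdd s) (Or.inr ⟨h0, h1, h⟩)

lemma gl_lt_of_lt_W {x s : ℝ} (h0 : 0 < x) (h : x < W s) : gl x < s := by
  obtain ⟨y, hy, hxy⟩ := exists_lt_of_lt_csSup ⟨0, mem_insert _ _⟩ h
  rcases hy with hy | hy
  · rw [hy] at hxy; linarith
  · exact (gl_strictMono h0 hxy hy.2.1).trans_le hy.2.2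

lemma W_mono : Monotone W := by
  intro s t hst
  apply csSup_le_csSup (W_bdd t) ⟨0, mem_insert _ _⟩
  rintro x (hx | hx)
  · exact Or.inl hx
  · exact Or.inr ⟨hx.1, hx.2.1, hx.2.2.trans hst⟩

lemma W_tendsto_atTop : Tendsto W atTop (𝓝 1) := by
  rw [Metric.tendsto_atTop]
  intro ε hε
  set x := max (1 - ε/2) (1/2) with hx
  have hx0 : 0 < x := lt_of_lt_of_le (by norm_num) (le_max_right _ _)
  have hx1 : x < 1 := max_lt (by linarith) (by norm_num)
  refine ⟨gl x, fun s hs => ?_⟩
  have h1 := le_W hx0 hx1 hs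
  have h2 := W_le_one s
  have h3 : 1 - ε/2 ≤ x := le_max_left _ _
  rw [Real.dist_eq, abs_sub_comm, abs_of_nonneg (by linarith)]
  linarith

lemma W_tendsto_atBot : Tendsto W atBot (𝓝 0) := by
  rw [Metric.tendsto_nhds]
  intro ε hε
  set x := min (ε/2) (1/2) with hx
  have hx0 : 0 < x := lt_min (by linarith) (by norm_num)
  have hx1 : x < 1 := lt_of_le_of_lt (min_le_right _ _) (by norm_num)
  filter_upwards [eventually_le_atBot (gl x)] with s hs
  have h1 : W s ≤ x := by
    by_contra hcon
    push Not at hcon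
    have := gl_lt_of_lt_W hx0 hcon
    linarith
  have h2 := W_nonneg s
  have h3 : x ≤ ε/2 := min_le_left _ _
  rw [Real.dist_eq, sub_zero, abs_of_nonneg h2]
  linarith

lemma W_pointwise (s : ℝ) : Tendsto (fun k => phi (k + 1) (pos k + s)) atTop (𝓝 (W s)) := by
  have hpos : ∀ᶠ k in atTop, 0 ≤ pos k + s := by
    filter_upwards [pos_tendsto.eventually_ge_atTop (-s)] with k hk
    linarith
  rw [tendsto_order]
  constructor
  · intro a ha
    rcases lt_or_ge a 0 with h | h
    · filter_upwards [hpos] with k hk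
      exact h.trans_le (phi_nonneg _ hk)
    · obtain ⟨x, hx1, hx2⟩ := exists_between ha
      have hx0 : 0 < x := h.trans_lt hx1
      have hx1' : x < 1 := hx2.trans_le (W_le_one s)
      have h1 := gl_lt_of_lt_W hx0 hx2
      filter_upwards [hpos, (gl_tendsto hx0 hx1').eventually_lt_const h1] with k hk hk2
      have h2 : hit k x < pos k + s := by linarith
      rw [← lt_phi_iff k hx0 hx1' hk] at h2
      exact hx1.trans h2
  · intro a ha
    rcases lt_or_ge 1 a with h | h
    · filter_upwards [hpos] with k hk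
      exact (phi_le_one _ hk).trans_lt h
    · obtain ⟨x, hx1, hx2⟩ := exists_between ha
      have hx0 : 0 < x := (W_nonneg s).trans_lt hx1
      have hx1' : x < 1 := hx2.trans_le h
      have h1 : s < gl x := by
        by_contra hcon
        push Not at hcon
        have := le_W hx0 hx1' hcon
        linarith
      filter_upwards [hpos, (gl_tendsto hx0 hx1').eventually_const_lt h1] with k hk hk2
      have h2 : pos k + s < hit k x := by linarith
      rw [← phi_lt_iff k hx0 hx1' hk] at h2
      exact h2.trans hx2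

lemma phi_lipschitz (k : ℕ) {s t : ℝ} (hs : 0 ≤ s) (hst : s ≤ t) :
    phi (k + 1) t - phi (k + 1) s ≤ t - s := by
  have hmono : MonotoneOn (fun t => t - phi (k + 1) t) (Ici 0) := by
    apply monotoneOn_Ici_of_deriv
      (f' := fun t => 1 - phi k t * (phi k t - phi (k + 1) t))
    · intro t
      exact (hasDerivAt_id t).sub (hasDerivAt_phi k t)
    · intro t ht
      have h1 := phi_nonneg k ht
      have h2 := phi_le_one k ht
      have h3 := phi_nonneg (k + 1) ht
      have h4 := phi_succ_le k ht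
      nlinarith
  have := hmono (mem_Ici.2 hs) (mem_Ici.2 (hs.trans hst)) hst
  simp only at this
  linarith

lemma phi_lipschitz' (k : ℕ) {s t : ℝ} (hs : 0 ≤ s) (ht : 0 ≤ t) :
    |phi (k + 1) t - phi (k + 1) s| ≤ |t - s| := by
  rcases le_total s t with h | h
  · have h1 := phi_lipschitz k hs h
    have h2 := phi_mono (k + 1) hs h
    rw [abs_of_nonneg (by linarith), abs_of_nonneg (by linarith)]
    exact h1
  · have h1 := phi_lipschitz k ht h
    have h2 := phi_mono (k + 1) ht h
    rw [abs_sub_comm, abs_sub_comm t s, abs_of_nonneg (by linarith), abs_of_nonneg (by linarith)]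
    exact h1

lemma W_lipschitz (s t : ℝ) : |W t - W s| ≤ |t - s| := by
  have h1 := ((W_pointwise t).sub (W_pointwise s)).abs
  apply le_of_tendsto h1
  filter_upwards [pos_tendsto.eventually_ge_atTop (-s), pos_tendsto.eventually_ge_atTop (-t)]
    with k hk1 hk2
  have := phi_lipschitz' k (s := pos k + s) (t := pos k + t) (by linarith) (by linarith)
  have e : pos k + t - (pos k + s) = t - s := by ring
  rwa [e] at this

lemma W_continuous : Continuous W := by
  have : LipschitzWith 1 W := by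
    apply LipschitzWith.of_dist_le_mul
    intro s t
    rw [Real.dist_eq, Real.dist_eq, NNReal.coe_one, one_mul]
    exact W_lipschitz t s
  exact this.continuous

/-- uniform convergence -/
lemma W_uniform {ε : ℝ} (hε : 0 < ε) :
    ∀ᶠ k in atTop, ∀ t, 0 ≤ t → |phi (k + 1) t - W (t - pos k)| ≤ 3 * ε := by
  obtain ⟨R1, hR1⟩ := Metric.tendsto_atTop.1 W_tendsto_atTop ε hε
  obtain ⟨R2, hR2⟩ := (Metric.tendsto_nhds.1 W_tendsto_atBot ε hε).exists_forall_of_atBot
  obtain ⟨M, hM⟩ := exists_nat_ge (max (max R1 (-R2)) 0 / ε)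
  rw [div_le_iff₀ hε] at hM
  have hMR1 : R1 ≤ M * ε := ((le_max_left _ _).trans (le_max_left _ _)).trans hM
  have hMR2 : -R2 ≤ M * ε := ((le_max_right _ _).trans (le_max_left _ _)).trans hM
  have hgrid : ∀ᶠ k in atTop, ∀ i ∈ Finset.Icc (-(M:ℤ)) (M:ℤ),
      |phi (k + 1) (pos k + i * ε) - W (i * ε)| ≤ ε := by
    rw [Finset.eventually_all]
    intro i _
    have := Metric.tendsto_nhds.1 (W_pointwise (i * ε)) ε hε
    filter_upwards [this] with k hk
    rw [Real.dist_eq] at hk
    exact hk.le
  filter_upwards [hgrid, pos_tendsto.eventually_ge_atTop (M * ε)] with k hk hpk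
  intro t ht
  set s := t - pos k with hs
  have hts : t = pos k + s := by rw [hs]; ring
  have hMpos : (0:ℝ) ≤ M * ε := by positivity
  rcases lt_or_ge s (-(M * ε)) with h1 | h1
  · -- far left
    have h2 := hk (-(M:ℤ)) (by simp)
    have e : (((-(M:ℤ)) : ℤ) : ℝ) * ε = -(M * ε) := by push_cast; ring
    rw [e] at h2
    have h3 : phi (k + 1) t ≤ phi (k + 1) (pos k + -(M * ε)) :=
      phi_mono _ ht (by rw [hts]; linarith)
    have h4 := phi_nonneg (k + 1) ht
    have h5 := hR2 (-(M * ε)) (by linarith)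
    rw [Real.dist_eq, sub_zero, abs_of_nonneg (W_nonneg _)] at h5
    have h6 := W_mono h1.le
    have h7 := W_nonneg s
    have h8 := (abs_le.1 h2).2
    rw [abs_le]
    constructor <;> linarith
  · rcases lt_or_ge (M * ε) s with h2 | h2
    · -- far right
      have h3 := hk (M:ℤ) (by simp)
      have e : (((M:ℤ)) : ℝ) * ε = M * ε := by push_cast; ring
      rw [e] at h3
      have h4 : phi (k + 1) (pos k + M * ε) ≤ phi (k + 1) t :=
        phi_mono _ (by linarith) (by rw [hts]; linarith)
      have h5 := phi_le_one (k + 1) ht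
      have h6 := hR1 (M * ε) hMR1
      rw [Real.dist_eq] at h6
      have h7 := (abs_lt.1 h6).1
      have h8 := W_mono h2.le
      have h9 := W_le_one s
      have h10 := (abs_le.1 h3).1
      rw [abs_le]
      constructor <;> linarith
    · -- middle
      set i := ⌊s / ε⌋ with hi
      have hi1 : (i : ℝ) * ε ≤ s := by
        have := Int.floor_le (s / ε)
        rwa [← hi, le_div_iff₀ hε] at this
      have hi2 : s < (i : ℝ) * ε + ε := by
        have := Int.lt_floor_add_one (s / ε)
        rw [← hi, div_lt_iff₀ hε] at this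
        linarith
      have hiM : i ∈ Finset.Icc (-(M:ℤ)) (M:ℤ) := by
        rw [Finset.mem_Icc]
        constructor
        · rw [hi, Int.le_floor, le_div_iff₀ hε]
          push_cast
          linarith
        · have : (i : ℝ) ≤ (M : ℝ) := by
            have h3 : (i : ℝ) * ε ≤ M * ε := hi1.trans h2
            exact le_of_mul_le_mul_right h3 hε
          exact_mod_cast this
      have h3 := hk i hiM
      have hi3 : -(M:ℝ) * ε ≤ i * ε := by
        have : (-(M:ℝ)) ≤ i := by
          have := (Finset.mem_Icc.1 hiM).1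
          exact_mod_cast this
        exact mul_le_mul_of_nonneg_right this hε.le
      have h4 := phi_lipschitz' k (s := pos k + i * ε) (t := t) (by linarith) ht
      have h5 := W_lipschitz (i * ε) s
      have e1 : |t - (pos k + i * ε)| ≤ ε := by
        rw [hts, abs_le]; constructor <;> linarith
      have e2 : |s - i * ε| ≤ ε := by
        rw [abs_le]; constructor <;> linarith
      have h6 : phi (k + 1) t - W s = (phi (k + 1) t - phi (k + 1) (pos k + i * ε)) +
        (phi (k + 1) (pos k + i * ε) - W (i * ε)) - (W s - W (i * ε)) := by ring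
      rw [h6]
      refine (abs_sub _ _).trans ?_
      have := abs_add_le (phi (k + 1) t - phi (k + 1) (pos k + i * ε))
        (phi (k + 1) (pos k + i * ε) - W (i * ε))
      linarith

end Pool.Agent.H45.LatticeWave
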