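import Pool.Agent.H45.LatticeWave.Front

open Set MeasureTheory Filter Topology intervalIntegral

namespace Pool.Agent.H45.LatticeWave

lemma shift_tendsto {ψ : ℕ → ℕ} (hψ : Tendsto ψ atTop atTop) {τ : ℝ}
    (hτ : Tendsto (fun j => delay (ψ j) (1/2)) atTop (𝓝 τ)) (s : ℝ) :
    Tendsto (fun j => phi (ψ j + 2) (pos (ψ j) + s)) atTop (𝓝 (W (s - τ))) := by
  have h1 : Tendsto (fun j => W (s - delay (ψ j) (1/2))) atTop (𝓝 (W (s - τ))) :=
    (W_continuous.tendsto _).comp (tendsto_const_nhds.sub hτ)
  have h2 : Tendsto (fun j => phi (ψ j + 2) (pos (ψ j) + s) - W (s - delay (ψ j) (1/2))) atTop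
      (𝓝 0) := by
    rw [Metric.tendsto_nhds]
    intro ε hε
    have h3 : Tendsto (fun j => ψ j + 1) atTop atTop :=
      (tendsto_add_atTop_nat 1).comp hψ
    have h4 : ∀ᶠ j in atTop, 0 ≤ pos (ψ j) + s := by
      filter_upwards [(pos_tendsto.comp hψ).eventually_ge_atTop (-s)] with j hj
      simp only [Function.comp] at hj
      linarith
    filter_upwards [h3.eventually (W_uniform (show 0 < ε / 6 by linarith)), h4] with j hj hj2
    have h5 := hj _ hj2
    have e : pos (ψ j) + s - pos (ψ j + 1) = s - delay (ψ j) (1/2) := by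
      unfold delay pos
      ring
    rw [e] at h5
    rw [Real.dist_eq, sub_zero]
    have e2 : ψ j + 1 + 1 = ψ j + 2 := rfl
    rw [e2] at h5
    linarith
  have h3 := h2.add h1
  simpa using h3

lemma W_energy {ψ : ℕ → ℕ} (hψ : Tendsto ψ atTop atTop) {τ : ℝ}
    (hτ : Tendsto (fun j => delay (ψ j) (1/2)) atTop (𝓝 τ)) (a b : ℝ) :
    ∫ s in a..b, W s * (W s - W (s - τ)) = W (b - τ) - W (a - τ) := by
  have hid : ∀ k : ℕ, ∫ s in a..b, phi (k + 1) (pos k + s) *
      (phi (k + 1) (pos k + s) - phi (k + 2) (pos k + s)) =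
      phi (k + 2) (pos k + b) - phi (k + 2) (pos k + a) := by
    intro k
    rw [← energy (k + 1) (pos k + a) (pos k + b)]
    rw [← intervalIntegral.integral_comp_add_left
      (fun t => phi (k + 1) t * (phi (k + 1) t - phi (k + 1 + 1) t))]
  have h1 : Tendsto (fun j => phi (ψ j + 2) (pos (ψ j) + b) - phi (ψ j + 2) (pos (ψ j) + a)) atTop
      (𝓝 (W (b - τ) - W (a - τ))) := (shift_tendsto hψ hτ b).sub (shift_tendsto hψ hτ a)
  have hpos : ∀ᶠ j in atTop, 0 ≤ pos (ψ j) + min a b := by
    filter_upwards [(pos_tendsto.comp hψ).eventually_ge_atTop (-(min a b))] with j hj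
    simp only [Function.comp] at hj
    linarith
  have h2 : Tendsto (fun j => ∫ s in a..b, phi (ψ j + 1) (pos (ψ j) + s) *
      (phi (ψ j + 1) (pos (ψ j) + s) - phi (ψ j + 2) (pos (ψ j) + s))) atTop
      (𝓝 (∫ s in a..b, W s * (W s - W (s - τ)))) := by
    apply intervalIntegral.tendsto_integral_filter_of_dominated_convergence (fun _ => (1:ℝ))
    · refine Eventually.of_forall fun j => ?_
      apply Continuous.aestronglyMeasurable
      have c1 : Continuous fun s => phi (ψ j + 1) (pos (ψ j) + s) :=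
        (continuous_phi _).comp (continuous_const_add _)
      have c2 : Continuous fun s => phi (ψ j + 2) (pos (ψ j) + s) :=
        (continuous_phi _).comp (continuous_const_add _)
      exact c1.mul (c1.sub c2)
    · filter_upwards [hpos] with j hj
      refine Eventually.of_forall fun s hs => ?_
      rw [uIoc, mem_Ioc] at hs
      have hs0 : 0 ≤ pos (ψ j) + s := by linarith [hs.1]
      have p1 := phi_nonneg (ψ j + 1) hs0
      have p2 := phi_le_one (ψ j + 1) hs0
      have p3 := phi_nonneg (ψ j + 2) hs0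
      have p4 : phi (ψ j + 2) (pos (ψ j) + s) ≤ phi (ψ j + 1) (pos (ψ j) + s) :=
        phi_succ_le (ψ j + 1) hs0
      rw [Real.norm_eq_abs, abs_of_nonneg (mul_nonneg p1 (by linarith))]
      nlinarith
    · exact continuous_const.intervalIntegrable _ _
    · refine Eventually.of_forall fun s _ => ?_
      have q1 : Tendsto (fun j => phi (ψ j + 1) (pos (ψ j) + s)) atTop (𝓝 (W s)) :=
        (W_pointwise s).comp hψ
      exact q1.mul (q1.sub (shift_tendsto hψ hτ s))
  have h3 : (fun j => ∫ s in a..b, phi (ψ j + 1) (pos (ψ j) + s) *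
      (phi (ψ j + 1) (pos (ψ j) + s) - phi (ψ j + 2) (pos (ψ j) + s))) =
      fun j => phi (ψ j + 2) (pos (ψ j) + b) - phi (ψ j + 2) (pos (ψ j) + a) := by
    funext j
    exact hid (ψ j)
  rw [h3] at h2
  exact tendsto_nhds_unique h2 h1

/-- the property obtained in the limit -/
def EnergyEq (τ : ℝ) : Prop :=
  ∀ a b : ℝ, ∫ s in a..b, W s * (W s - W (s - τ)) = W (b - τ) - W (a - τ)

lemma EnergyEq.hasDerivAt {τ : ℝ} (h : EnergyEq τ) (s : ℝ) :
    HasDerivAt (fun u => W (u - τ)) (W s * (W s - W (s - τ))) s := by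
  have hc : Continuous fun s => W s * (W s - W (s - τ)) :=
    W_continuous.mul (W_continuous.sub (W_continuous.comp (continuous_sub_right τ)))
  have h1 : HasDerivAt (fun b => ∫ s in s..b, W s * (W s - W (s - τ)))
      (W s * (W s - W (s - τ))) s :=
    integral_hasDerivAt_right (hc.intervalIntegrable _ _)
      (hc.stronglyMeasurableAtFilter _ _) hc.continuousAt
  have h2 : (fun b => ∫ s in s..b, W s * (W s - W (s - τ))) = fun b => W (b - τ) - W (s - τ) := by
    funext b
    exact h s b
  rw [h2] at h1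
  have h3 := h1.add_const (W (s - τ))
  simpa using h3

lemma EnergyEq.hasDerivAt' {τ : ℝ} (h : EnergyEq τ) (s : ℝ) :
    HasDerivAt W (W (s + τ) * (W (s + τ) - W s)) s := by
  have h1 := h.hasDerivAt (s + τ)
  rw [add_sub_cancel_right] at h1
  have h2 := h1.comp_add_const s τ
  simpa using h2

lemma EnergyEq.unique_aux {τ τ' : ℝ} (h : EnergyEq τ) (h' : EnergyEq τ') (hlt : τ < τ') :
    False := by
  have hz : ∀ s, HasDerivAt (fun u => W (u - τ) - W (u - τ')) (-(W s * (W (s - τ) - W (s - τ')))) s := by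
    intro s
    have := (h.hasDerivAt s).sub (h'.hasDerivAt s)
    have e : -(W s * (W (s - τ) - W (s - τ'))) =
      W s * (W s - W (s - τ)) - W s * (W s - W (s - τ')) := by ring
    rw [e]
    exact this
  have hnn : ∀ s, 0 ≤ W (s - τ) - W (s - τ') := by
    intro s
    have := W_mono (show s - τ' ≤ s - τ by linarith)
    linarith
  have hanti : Antitone (fun u => W (u - τ) - W (u - τ')) := by
    apply antitone_of_deriv_nonpos (fun s => (hz s).differentiableAt)
    intro s
    rw [(hz s).deriv]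
    have := mul_nonneg (W_nonneg s) (hnn s)
    linarith
  have hlim : Tendsto (fun u => W (u - τ) - W (u - τ')) atBot (𝓝 0) := by
    have t1 : Tendsto (fun u => W (u - τ)) atBot (𝓝 0) :=
      W_tendsto_atBot.comp (tendsto_atBot_add_const_right _ (-τ) tendsto_id)
    have t2 : Tendsto (fun u => W (u - τ')) atBot (𝓝 0) :=
      W_tendsto_atBot.comp (tendsto_atBot_add_const_right _ (-τ') tendsto_id)
    simpa using t1.sub t2
  have hle : ∀ s, W (s - τ) - W (s - τ') ≤ 0 := by
    intro s
    apply ge_of_tendsto hlim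
    filter_upwards [eventually_le_atBot s] with u hu
    exact hanti hu
  have hper : ∀ u, W (u + (τ' - τ)) = W u := by
    intro u
    have h1 := hle (u + τ')
    have h2 := hnn (u + τ')
    have e1 : u + τ' - τ = u + (τ' - τ) := by ring
    have e2 : u + τ' - τ' = u := by ring
    rw [e1, e2] at h1 h2
    linarith
  have hper2 : ∀ (n : ℕ) (u : ℝ), W (u + n * (τ' - τ)) = W u := by
    intro n
    induction n with
    | zero => intro u; simp
    | succ n ih =>
      intro u
      have e : u + ((n + 1 : ℕ) : ℝ) * (τ' - τ) = (u + n * (τ' - τ)) + (τ' - τ) := by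
        push_cast; ring
      rw [e, hper, ih]
  have hone : ∀ u, W u = 1 := by
    intro u
    have t1 : Tendsto (fun n : ℕ => u + n * (τ' - τ)) atTop atTop := by
      apply tendsto_atTop_add_const_left
      exact Tendsto.atTop_mul_const (by linarith) tendsto_natCast_atTop_atTop
    have t2 := W_tendsto_atTop.comp t1
    have t3 : (W ∘ fun n : ℕ => u + n * (τ' - τ)) = fun _ => W u := by
      funext n
      exact hper2 n u
    rw [t3] at t2
    exact tendsto_nhds_unique tendsto_const_nhds t2
  have t4 : Tendsto W atBot (𝓝 1) := by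
    have : W = fun _ => (1:ℝ) := funext hone
    rw [this]
    exact tendsto_const_nhds
  have := tendsto_nhds_unique t4 W_tendsto_atBot
  norm_num at this

lemma EnergyEq.unique {τ τ' : ℝ} (h : EnergyEq τ) (h' : EnergyEq τ') : τ = τ' := by
  rcases lt_trichotomy τ τ' with hlt | heq | hgt
  · exact (h.unique_aux h' hlt).elim
  · exact heq
  · exact (h'.unique_aux h hgt).elim

lemma delay_tendsto : ∃ τ : ℝ, cc ≤ τ ∧ EnergyEq τ ∧
    Tendsto (fun k => delay k (1/2)) atTop (𝓝 τ) := by
  have hmem : ∀ k, delay k (1/2) ∈ Icc cc 4 := fun k => ⟨delay_half_ge k, delay_half_le k⟩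
  obtain ⟨τ, hτ, ψ, hψ, hlim⟩ := (isCompact_Icc (a := cc) (b := 4)).tendsto_subseq hmem
  have hE : EnergyEq τ := fun a b => W_energy hψ.tendsto_atTop hlim a b
  refine ⟨τ, hτ.1, hE, ?_⟩
  apply tendsto_of_subseq_tendsto
  intro ns hns
  obtain ⟨τ', _, ms, hms, hlim'⟩ := (isCompact_Icc (a := cc) (b := 4)).tendsto_subseq
    (fun n => hmem (ns n))
  have hE' : EnergyEq τ' := fun a b =>
    W_energy (ψ := fun j => ns (ms j)) (hns.comp hms.tendsto_atTop) hlim' a b
  refine ⟨ms, ?_⟩
  rw [hE.unique hE']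
  exact hlim'

/-- shifts -/
noncomputable def mm : ℕ → ℝ
  | 0 => 0
  | k + 1 => pos k

theorem exists_wave : ∃ τ m, ConvergesToWave τ W m := by
  obtain ⟨τ, hτ, hE, hlim⟩ := delay_tendsto
  have hder := fun s => hE.hasDerivAt' s
  refine ⟨τ, mm, ⟨cc_pos.trans_le hτ, ⟨?_, W_mono, W_nonneg, W_le_one, W_tendsto_atBot,
    W_tendsto_atTop, fun s => (hder s).deriv⟩, ?_, ?_⟩⟩
  · rw [contDiff_one_iff_deriv]
    refine ⟨fun s => (hder s).differentiableAt, ?_⟩
    have : deriv W = fun s => W (s + τ) * (W (s + τ) - W s) := funext fun s => (hder s).deriv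
    rw [this]
    have hc : Continuous fun s => W (s + τ) := W_continuous.comp (continuous_add_const τ)
    exact hc.mul (hc.sub W_continuous)
  · rw [← tendsto_add_atTop_iff_nat 1]
    exact hlim
  · intro ε hε
    obtain ⟨N, hN⟩ := eventually_atTop.1 (W_uniform (show 0 < ε / 3 by linarith))
    rw [eventually_atTop]
    refine ⟨N + 1, fun k hk t ht => ?_⟩
    obtain ⟨j, rfl⟩ : ∃ j, k = j + 1 := ⟨k - 1, by omega⟩
    have := hN j (by omega) t ht
    have e : mm (j + 1) = pos j := rfl
    rw [e]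
    linarith

end Pool.Agent.H45.LatticeWave
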