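import Pool.Agent.H45.LatticeWave.Defs

open Set MeasureTheory Filter Topology intervalIntegral

namespace Pool.Agent.H45.LatticeWave

namespace IsWaveProfile

variable {τ : ℝ} {W : ℝ → ℝ}

lemma cont (h : IsWaveProfile τ W) : Continuous W := h.contDiff.continuous

lemma hasDeriv (h : IsWaveProfile τ W) (s : ℝ) :
    HasDerivAt W (W (s + τ) * (W (s + τ) - W s)) s := by
  have h1 : DifferentiableAt ℝ W s := (h.contDiff.differentiable (by norm_num)) s
  have h2 := h1.hasDerivAt
  rwa [h.eqn s] at h2

lemma ii (h : IsWaveProfile τ W) (a b : ℝ) : IntervalIntegrable W volume a b :=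
  h.cont.intervalIntegrable _ _

lemma cont_shift (h : IsWaveProfile τ W) : Continuous fun s => W (s + τ) :=
  h.cont.comp (continuous_add_const τ)

lemma iiD (h : IsWaveProfile τ W) (a b : ℝ) :
    IntervalIntegrable (fun s => W (s + τ) - W s) volume a b :=
  (h.cont_shift.sub h.cont).intervalIntegrable _ _

lemma iiE (h : IsWaveProfile τ W) (a b : ℝ) :
    IntervalIntegrable (fun s => W (s + τ) * (W (s + τ) - W s)) volume a b :=
  (h.cont_shift.mul (h.cont_shift.sub h.cont)).intervalIntegrable _ _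

lemma energy (h : IsWaveProfile τ W) (a b : ℝ) :
    ∫ s in a..b, W (s + τ) * (W (s + τ) - W s) = W b - W a :=
  integral_eq_sub_of_hasDerivAt (fun s _ => h.hasDeriv s) (h.iiE a b)

/-- telescoping -/
lemma tele (h : IsWaveProfile τ W) (a b : ℝ) :
    ∫ s in a..b, (W (s + τ) - W s) = (∫ s in b..(b + τ), W s) - ∫ s in a..(a + τ), W s := by
  rw [intervalIntegral.integral_sub (h.cont_shift.intervalIntegrable _ _) (h.ii _ _)]
  rw [intervalIntegral.integral_comp_add_right (fun s => W s) τ]
  have h1 : (∫ s in a..(a + τ), W s) + ∫ s in (a + τ)..(b + τ), W s = ∫ s in a..(b + τ), W s :=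
    integral_add_adjacent_intervals (h.ii _ _) (h.ii _ _)
  have h2 : (∫ s in a..b, W s) + ∫ s in b..(b + τ), W s = ∫ s in a..(b + τ), W s :=
    integral_add_adjacent_intervals (h.ii _ _) (h.ii _ _)
  linarith

lemma int_le (h : IsWaveProfile τ W) (hτ : 0 < τ) (a : ℝ) :
    ∫ s in a..(a + τ), W s ≤ τ * W (a + τ) := by
  have h1 : ∫ s in a..(a + τ), W s ≤ ∫ _ in a..(a + τ), W (a + τ) := by
    apply intervalIntegral.integral_mono_on (by linarith) (h.ii _ _)
      (continuous_const.intervalIntegrable _ _)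
    intro t ht
    exact h.mono ht.2
  rw [intervalIntegral.integral_const, smul_eq_mul] at h1
  have e : (a + τ - a) * W (a + τ) = τ * W (a + τ) := by ring
  linarith

lemma le_int (h : IsWaveProfile τ W) (hτ : 0 < τ) (a : ℝ) :
    τ * W a ≤ ∫ s in a..(a + τ), W s := by
  have h1 : ∫ _ in a..(a + τ), W a ≤ ∫ s in a..(a + τ), W s := by
    apply intervalIntegral.integral_mono_on (by linarith)
      (continuous_const.intervalIntegrable _ _) (h.ii _ _)
    intro t ht
    exact h.mono ht.1
  rw [intervalIntegral.integral_const, smul_eq_mul] at h1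
  have e : (a + τ - a) * W a = τ * W a := by ring
  linarith

lemma D_nonneg (h : IsWaveProfile τ W) (hτ : 0 < τ) (s : ℝ) : 0 ≤ W (s + τ) - W s := by
  have := h.mono (show s ≤ s + τ by linarith)
  linarith

/-- left tail inequality -/
lemma left_upper (h : IsWaveProfile τ W) (hτ : 0 < τ) (s : ℝ) : W s ≤ τ * W (s + τ) ^ 2 := by
  have key : ∀ u, u ≤ s → W s - W u ≤ τ * W (s + τ) ^ 2 := by
    intro u hu
    rw [← h.energy u s]
    have h1 : ∫ t in u..s, W (t + τ) * (W (t + τ) - W t) ≤
        ∫ t in u..s, W (s + τ) * (W (t + τ) - W t) := by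
      apply intervalIntegral.integral_mono_on hu (h.iiE _ _) ((h.iiD _ _).const_mul _)
      intro t ht
      exact mul_le_mul_of_nonneg_right (h.mono (by linarith [ht.2])) (h.D_nonneg hτ t)
    rw [intervalIntegral.integral_const_mul, h.tele] at h1
    have h2 := h.int_le hτ s
    have h3 : 0 ≤ ∫ s in u..(u + τ), W s :=
      intervalIntegral.integral_nonneg (by linarith) fun t _ => h.nonneg t
    have h4 := mul_le_mul_of_nonneg_left
      (show (∫ t in s..(s + τ), W t) - ∫ t in u..(u + τ), W t ≤ τ * W (s + τ) by linarith)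
      (h.nonneg (s + τ))
    nlinarith
  have hlim : Tendsto (fun u => W s - W u) atBot (𝓝 (W s - 0)) := h.tendsto_atBot.const_sub _
  rw [sub_zero] at hlim
  exact le_of_tendsto hlim ((eventually_le_atBot s).mono fun u hu => key u hu)

/-- right tail inequality -/
lemma right_ineq (h : IsWaveProfile τ W) (hτ : 0 < τ) (s : ℝ) :
    W (s + τ) * (τ * (1 - W (s + τ))) ≤ 1 - W s := by
  have key : ∀ u, s ≤ u → W (s + τ) * (τ * (W u - W (s + τ))) ≤ W u - W s := by
    intro u hu
    rw [← h.energy s u]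
    have h1 : ∫ t in s..u, W (s + τ) * (W (t + τ) - W t) ≤
        ∫ t in s..u, W (t + τ) * (W (t + τ) - W t) := by
      apply intervalIntegral.integral_mono_on hu ((h.iiD _ _).const_mul _) (h.iiE _ _)
      intro t ht
      exact mul_le_mul_of_nonneg_right (h.mono (by linarith [ht.1])) (h.D_nonneg hτ t)
    rw [intervalIntegral.integral_const_mul, h.tele] at h1
    have h2 := h.int_le hτ s
    have h3 := h.le_int hτ u
    have h4 := mul_le_mul_of_nonneg_left
      (show τ * (W u - W (s + τ)) ≤ (∫ t in u..(u + τ), W t) - ∫ t in s..(s + τ), W t by linarith)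
      (h.nonneg (s + τ))
    linarith
  have hlim1 : Tendsto (fun u => W u - W s) atTop (𝓝 (1 - W s)) := h.tendsto_atTop.sub_const _
  have hlim2 : Tendsto (fun u => W (s + τ) * (τ * (W u - W (s + τ)))) atTop
      (𝓝 (W (s + τ) * (τ * (1 - W (s + τ))))) :=
    ((h.tendsto_atTop.sub_const _).const_mul _).const_mul _
  exact le_of_tendsto_of_tendsto hlim2 hlim1 ((eventually_ge_atTop s).mono fun u hu => key u hu)

/-- `(1 - W) e^s` is nondecreasing -/
lemma v_mono (h : IsWaveProfile τ W) (hτ : 0 < τ) :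
    Monotone fun s => (1 - W s) * Real.exp s := by
  have hd : ∀ s, HasDerivAt (fun s => (1 - W s) * Real.exp s)
      (-(W (s + τ) * (W (s + τ) - W s)) * Real.exp s + (1 - W s) * Real.exp s) s := by
    intro s
    exact ((h.hasDeriv s).const_sub 1).mul (Real.hasDerivAt_exp s)
  apply monotone_of_deriv_nonneg fun s => (hd s).differentiableAt
  intro s
  rw [(hd s).deriv]
  have h1 := h.nonneg (s + τ)
  have h2 := h.le_one (s + τ)
  have h3 := h.D_nonneg hτ s
  have h4 : 0 < Real.exp s := Real.exp_pos s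
  have h5 : W (s + τ) * (W (s + τ) - W s) ≤ 1 - W s := by nlinarith
  nlinarith

lemma lt_one (h : IsWaveProfile τ W) (hτ : 0 < τ) (s : ℝ) : W s < 1 := by
  have h1 : ∀ᶠ u in atBot, W u < 1 := h.tendsto_atBot.eventually_lt_const one_pos
  obtain ⟨u, hu1, hu2⟩ := (h1.and (eventually_le_atBot s)).exists
  have h2 := h.v_mono hτ hu2
  simp only at h2
  have h3 : 0 < (1 - W u) * Real.exp u := mul_pos (by linarith) (Real.exp_pos _)
  have h4 : 0 < (1 - W s) * Real.exp s := lt_of_lt_of_le h3 h2
  have h5 := (mul_pos_iff_of_pos_right (Real.exp_pos s)).1 h4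
  linarith

lemma pos' (h : IsWaveProfile τ W) (hτ : 0 < τ) (s : ℝ) : 0 < W s := by
  by_contra hcon
  have hs : W s = 0 := le_antisymm (not_lt.1 hcon) (h.nonneg s)
  have step : ∀ s, W s = 0 → W (s + τ / 2) = 0 := by
    intro s hs
    set u := s - τ / 2 with hu
    have hz : ∀ t, t < s → W t = 0 := fun t ht =>
      le_antisymm (hs ▸ h.mono ht.le) (h.nonneg t)
    have hev : W =ᶠ[𝓝 u] fun _ => (0:ℝ) := by
      filter_upwards [Iio_mem_nhds (show u < s by rw [hu]; linarith)] with t ht
      exact hz t ht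
    have h1 : deriv W u = 0 := by
      rw [hev.deriv_eq]
      simp
    rw [h.eqn u, hz u (by rw [hu]; linarith), sub_zero] at h1
    have e : u + τ = s + τ / 2 := by rw [hu]; ring
    rw [e] at h1
    exact mul_self_eq_zero.1 h1
  have hall : ∀ n : ℕ, W (s + n * (τ / 2)) = 0 := by
    intro n
    induction n with
    | zero => simpa using hs
    | succ n ih =>
      have := step _ ih
      have e : s + ((n + 1 : ℕ) : ℝ) * (τ / 2) = s + n * (τ / 2) + τ / 2 := by push_cast; ring
      rw [e]
      exact this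
  have t1 : Tendsto (fun n : ℕ => s + n * (τ / 2)) atTop atTop := by
    apply tendsto_atTop_add_const_left
    exact Tendsto.atTop_mul_const (by linarith) tendsto_natCast_atTop_atTop
  have t2 := h.tendsto_atTop.comp t1
  have t3 : (W ∘ fun n : ℕ => s + n * (τ / 2)) = fun _ => (0:ℝ) := funext hall
  rw [t3] at t2
  have := tendsto_nhds_unique t2 tendsto_const_nhds
  norm_num at this

lemma exists_D_pos (h : IsWaveProfile τ W) (hτ : 0 < τ) : ∃ s, 0 < W (s + τ) - W s := by
  by_contra hcon
  push Not at hcon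
  have h1 : ∀ s, deriv W s = 0 := by
    intro s
    rw [h.eqn s]
    have : W (s + τ) - W s = 0 := le_antisymm (hcon s) (h.D_nonneg hτ s)
    rw [this, mul_zero]
  have h2 : ∀ x y, W x = W y := is_const_of_deriv_eq_zero
    (h.contDiff.differentiable (by norm_num)) h1
  have h3 : W = fun _ => W 0 := funext fun x => h2 x 0
  have h4 : Tendsto W atBot (𝓝 (W 0)) := by rw [h3]; exact tendsto_const_nhds
  have h5 : Tendsto W atTop (𝓝 (W 0)) := by rw [h3]; exact tendsto_const_nhds
  have h6 := tendsto_nhds_unique h4 h.tendsto_atBot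
  have h7 := tendsto_nhds_unique h5 h.tendsto_atTop
  rw [h6] at h7
  norm_num at h7

lemma one_lt_tau (h : IsWaveProfile τ W) (hτ : 0 < τ) : 1 < τ := by
  obtain ⟨s0, hs0⟩ := h.exists_D_pos hτ
  set g : ℝ → ℝ := fun s => (1 - W (s + τ)) * (W (s + τ) - W s) with hg
  have hgc : Continuous g :=
    (continuous_const.sub h.cont_shift).mul (h.cont_shift.sub h.cont)
  have hgn : ∀ s, 0 ≤ g s := fun s =>
    mul_nonneg (by linarith [h.le_one (s + τ)]) (h.D_nonneg hτ s)
  set c := ∫ s in (s0 - 1)..(s0 + 1), g s with hc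
  have hcpos : 0 < c := by
    apply intervalIntegral.integral_pos (by linarith) hgc.continuousOn (fun s _ => hgn s)
    exact ⟨s0, ⟨by linarith, by linarith⟩, mul_pos (by linarith [h.lt_one hτ (s0 + τ)]) hs0⟩
  have key : ∀ N, |s0| + 1 ≤ N → W N - W (-N) ≤ τ - c := by
    intro N hN
    have hN1 := le_abs_self s0
    have hN2 := neg_abs_le s0
    rw [← h.energy (-N) N]
    have e1 : ∫ s in (-N)..N, W (s + τ) * (W (s + τ) - W s) =
        (∫ s in (-N)..N, (W (s + τ) - W s)) - ∫ s in (-N)..N, g s := by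
      rw [← intervalIntegral.integral_sub (h.iiD _ _) (hgc.intervalIntegrable _ _)]
      apply intervalIntegral.integral_congr
      intro s _
      simp only [hg]
      ring
    rw [e1, h.tele]
    have h1 := h.int_le hτ N
    have h2 : 0 ≤ ∫ s in (-N)..(-N + τ), W s :=
      intervalIntegral.integral_nonneg (by linarith) fun t _ => h.nonneg t
    have h3 : c ≤ ∫ s in (-N)..N, g s := by
      have h4 : ∫ s in (-N)..N, g s = (∫ s in (-N)..(s0 - 1), g s) +
          (∫ s in (s0 - 1)..(s0 + 1), g s) + ∫ s in (s0 + 1)..N, g s := by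
        rw [integral_add_adjacent_intervals (hgc.intervalIntegrable _ _)
          (hgc.intervalIntegrable _ _), integral_add_adjacent_intervals
          (hgc.intervalIntegrable _ _) (hgc.intervalIntegrable _ _)]
      have h5 : 0 ≤ ∫ s in (-N)..(s0 - 1), g s :=
        intervalIntegral.integral_nonneg (by linarith) fun t _ => hgn t
      have h6 : 0 ≤ ∫ s in (s0 + 1)..N, g s :=
        intervalIntegral.integral_nonneg (by linarith) fun t _ => hgn t
      rw [h4]
      linarith
    have h7 : τ * W (N + τ) ≤ τ * 1 := mul_le_mul_of_nonneg_left (h.le_one _) hτ.le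
    linarith
  have hlim : Tendsto (fun N => W N - W (-N)) atTop (𝓝 (1 - 0)) :=
    h.tendsto_atTop.sub (h.tendsto_atBot.comp tendsto_neg_atTop_atBot)
  have h8 := le_of_tendsto hlim ((eventually_ge_atTop (|s0| + 1)).mono fun N hN => key N hN)
  linarith

lemma expTail (h : IsWaveProfile τ W) (hτ : 0 < τ) : ExpTail (fun r => 1 - W r) := by
  have hτ1 := h.one_lt_tau hτ
  set ρ := (1 + τ) / 2 with hρ
  have hρ1 : 1 < ρ := by rw [hρ]; linarith
  have hρτ : ρ < τ := by rw [hρ]; linarith
  have hρ0 : 0 < ρ := by linarith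
  have hev : ∀ᶠ s in atTop, ρ < W s * τ := by
    have h1 : Tendsto (fun s => W s * τ) atTop (𝓝 (1 * τ)) := h.tendsto_atTop.mul_const τ
    rw [one_mul] at h1
    exact h1.eventually_const_lt hρτ
  obtain ⟨S0, hS0, hS0'⟩ := (hev.and (eventually_ge_atTop 0)).exists
  have hstep : ∀ s, S0 ≤ s → ρ * (1 - W (s + τ)) ≤ 1 - W s := by
    intro s hs
    have h1 := h.right_ineq hτ s
    have h2 := h.mono (show S0 ≤ s + τ by linarith)
    have h3 := h.le_one (s + τ)
    have h4 : ρ ≤ W (s + τ) * τ := hS0.le.trans (mul_le_mul_of_nonneg_right h2 hτ.le)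
    have h5 := mul_le_mul_of_nonneg_right h4 (show 0 ≤ 1 - W (s + τ) by linarith)
    linarith
  have hind : ∀ n : ℕ, ρ ^ n * (1 - W (S0 + n * τ)) ≤ 1 := by
    intro n
    induction n with
    | zero =>
      have := h.nonneg S0
      simpa using this
    | succ n ih =>
      have h1 := hstep (S0 + n * τ) (by have : 0 ≤ (n:ℝ) * τ := by positivity
                                        linarith)
      have e : S0 + ((n + 1 : ℕ) : ℝ) * τ = S0 + n * τ + τ := by push_cast; ring
      rw [e, pow_succ, mul_assoc]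
      exact (mul_le_mul_of_nonneg_left h1 (by positivity)).trans ih
  set a := Real.log ρ / τ with ha
  have hlog : 0 < Real.log ρ := Real.log_pos hρ1
  have ha0 : 0 < a := div_pos hlog hτ
  have hup : ∀ s, 0 ≤ s → 1 - W s ≤ ρ * Real.exp (a * S0) * Real.exp (-a * s) := by
    intro s hs
    have e1 : ρ * Real.exp (a * S0) * Real.exp (-a * s) = ρ * Real.exp (-(a * (s - S0))) := by
      rw [mul_assoc, ← Real.exp_add]; congr 2; ring
    rw [e1]
    rcases le_total s S0 with hle | hge
    · have h1 : 1 ≤ Real.exp (-(a * (s - S0))) := by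
        rw [Real.one_le_exp_iff]
        have : a * (s - S0) ≤ 0 := mul_nonpos_of_nonneg_of_nonpos ha0.le (by linarith)
        linarith
      have h2 := h.nonneg s
      nlinarith
    · set n := ⌊(s - S0) / τ⌋₊ with hn
      have h1 : (n:ℝ) ≤ (s - S0) / τ := Nat.floor_le (div_nonneg (by linarith) hτ.le)
      have h2 : (s - S0) / τ < n + 1 := Nat.lt_floor_add_one _
      have h3 : S0 + n * τ ≤ s := by
        rw [le_div_iff₀ hτ] at h1; linarith
      have h4 := h.mono h3
      have h5 := hind n
      have h6 : Real.exp (a * (s - S0)) ≤ ρ ^ (n + 1) := by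
        have e2 : ρ ^ (n + 1) = Real.exp (Real.log ρ * ((n:ℝ) + 1)) := by
          rw [← Real.rpow_natCast, Real.rpow_def_of_pos hρ0]
          push_cast
          rfl
        rw [e2]
        apply Real.exp_le_exp.2
        have e3 : a * (s - S0) = Real.log ρ * ((s - S0) / τ) := by rw [ha]; ring
        rw [e3]
        exact mul_le_mul_of_nonneg_left h2.le hlog.le
      have h7 : 0 ≤ 1 - W s := by linarith [h.le_one s]
      have h8 : (1 - W s) * Real.exp (a * (s - S0)) ≤ ρ := by
        calc (1 - W s) * Real.exp (a * (s - S0)) ≤ (1 - W s) * ρ ^ (n + 1) :=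
              mul_le_mul_of_nonneg_left h6 h7
          _ ≤ (1 - W (S0 + n * τ)) * ρ ^ (n + 1) :=
              mul_le_mul_of_nonneg_right (by linarith) (by positivity)
          _ = (ρ ^ n * (1 - W (S0 + n * τ))) * ρ := by ring
          _ ≤ 1 * ρ := mul_le_mul_of_nonneg_right h5 hρ0.le
          _ = ρ := one_mul _
      have h9 : Real.exp (a * (s - S0)) * Real.exp (-(a * (s - S0))) = 1 := by
        rw [← Real.exp_add]; simp
      have h10 := mul_le_mul_of_nonneg_right h8 (Real.exp_pos (-(a * (s - S0)))).le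
      rwa [mul_assoc, h9, mul_one] at h10
  have hv0 : 0 < 1 - W 0 := by linarith [h.lt_one hτ 0]
  have hlow : ∀ s, 0 ≤ s → (1 - W 0) * Real.exp (-s) ≤ 1 - W s := by
    intro s hs
    have h1 := h.v_mono hτ hs
    simp only [Real.exp_zero, mul_one] at h1
    have h2 := mul_le_mul_of_nonneg_right h1 (Real.exp_pos (-s)).le
    have h3 : Real.exp s * Real.exp (-s) = 1 := by rw [← Real.exp_add]; simp
    rwa [mul_assoc, h3, mul_one] at h2
  refine ⟨a, max a 1, max (ρ * Real.exp (a * S0)) (1 - W 0)⁻¹, ha0, le_max_left _ _, ?_, ?_⟩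
  · refine le_trans ?_ (le_max_right _ _)
    rw [one_le_inv₀ hv0]
    linarith [h.nonneg 0]
  · intro r hr
    constructor
    · refine le_trans ?_ (hlow r hr)
      apply mul_le_mul _ _ (Real.exp_pos _).le hv0.le
      · have h1 : (max (ρ * Real.exp (a * S0)) (1 - W 0)⁻¹)⁻¹ ≤ ((1 - W 0)⁻¹)⁻¹ :=
          inv_anti₀ (inv_pos.2 hv0) (le_max_right _ _)
        rwa [inv_inv] at h1
      · apply Real.exp_le_exp.2
        have : 1 * r ≤ max a 1 * r := mul_le_mul_of_nonneg_right (le_max_right _ _) hr
        linarith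
    · refine (hup r hr).trans ?_
      exact mul_le_mul_of_nonneg_right (le_max_left _ _) (Real.exp_pos _).le

lemma left_lower (h : IsWaveProfile τ W) (hτ : 0 < τ) {s : ℝ} (hs : τ * W (s + τ) ≤ 1 / 2) :
    τ / 4 * W (s + τ / 2) ^ 2 ≤ W s := by
  have h1 := h.energy (s - τ / 2) s
  have h2 : ∫ _ in (s - τ / 2)..s, W (s + τ / 2) * (W (s + τ / 2) / 2) ≤
      ∫ t in (s - τ / 2)..s, W (t + τ) * (W (t + τ) - W t) := by
    apply intervalIntegral.integral_mono_on (by linarith)
      (continuous_const.intervalIntegrable _ _) (h.iiE _ _)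
    intro t ht
    have h3 : W (s + τ / 2) ≤ W (t + τ) := h.mono (by linarith [ht.1])
    have h4 : W (t + τ) ≤ W (s + τ) := h.mono (by linarith [ht.2])
    have h5 := h.left_upper hτ t
    have h6 := h.nonneg (t + τ)
    have h7 := h.nonneg (s + τ / 2)
    have h8 : τ * W (t + τ) ^ 2 ≤ 1 / 2 * W (t + τ) := by
      have h9 : τ * W (t + τ) ≤ 1 / 2 := (mul_le_mul_of_nonneg_left h4 hτ.le).trans hs
      have h10 := mul_le_mul_of_nonneg_right h9 h6
      nlinarith
    exact mul_le_mul h3 (by linarith) (by linarith) h6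
  rw [intervalIntegral.integral_const, smul_eq_mul] at h2
  have h3 := h.nonneg (s - τ / 2)
  have e : (s - (s - τ / 2)) * (W (s + τ / 2) * (W (s + τ / 2) / 2)) =
    τ / 4 * W (s + τ / 2) ^ 2 := by ring
  linarith

lemma two_pow_eq (n : ℕ) : (2:ℝ) ^ n = Real.exp (Real.log 2 * n) := by
  rw [← Real.rpow_natCast, Real.rpow_def_of_pos two_pos]

lemma doubleExpTail (h : IsWaveProfile τ W) (hτ : 0 < τ) :
    DoubleExpTail (fun r => W (-r)) := by
  have hτ1 := h.one_lt_tau hτ
  have hlog2 : 0 < Real.log 2 := Real.log_pos (by norm_num)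
  -- upper bound
  set a := Real.log 2 / τ with ha
  have ha0 : 0 < a := div_pos hlog2 hτ
  have hup : ∃ c, 0 < c ∧ ∀ r, 0 ≤ r → W (-r) ≤ Real.exp (-c * Real.exp (a * r)) := by
    have hev : ∀ᶠ s in atBot, W s * τ < Real.exp (-1) := by
      have h1 : Tendsto (fun s => W s * τ) atBot (𝓝 (0 * τ)) := h.tendsto_atBot.mul_const τ
      rw [zero_mul] at h1
      exact h1.eventually_lt_const (Real.exp_pos _)
    obtain ⟨S0, hS0, hS0'⟩ := (hev.and (eventually_le_atBot 0)).exists
    have hind : ∀ n : ℕ, τ * W (S0 - n * τ) ≤ Real.exp (-2 ^ n) := by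
      intro n
      induction n with
      | zero =>
        have e : S0 - ((0:ℕ):ℝ) * τ = S0 := by simp
        rw [e, pow_zero, mul_comm]
        exact hS0.le
      | succ n ih =>
        have h1 := h.left_upper hτ (S0 - (n + 1) * τ)
        have e : S0 - ((n:ℝ) + 1) * τ + τ = S0 - n * τ := by ring
        rw [e] at h1
        have h2 := h.nonneg (S0 - n * τ)
        have e2 : Real.exp (-2 ^ (n + 1)) = Real.exp (-2 ^ n) ^ 2 := by
          rw [← Real.exp_nat_mul]; congr 1; push_cast; ring
        rw [e2]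
        push_cast
        calc τ * W (S0 - (n + 1) * τ) ≤ τ * (τ * W (S0 - n * τ) ^ 2) :=
              mul_le_mul_of_nonneg_left h1 hτ.le
          _ = (τ * W (S0 - n * τ)) ^ 2 := by ring
          _ ≤ Real.exp (-2 ^ n) ^ 2 := pow_le_pow_left₀ (by positivity) ih 2
    have hW0 : 0 < W 0 := h.pos' hτ 0
    have hW1 : W 0 < 1 := h.lt_one hτ 0
    have hl : 0 < -Real.log (W 0) := by
      have := Real.log_neg hW0 hW1
      linarith
    refine ⟨min (1 / 2 * Real.exp (a * S0)) (-Real.log (W 0) * Real.exp (a * S0)),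
      lt_min (by positivity) (by positivity), ?_⟩
    intro r hr
    rcases le_total (-r) S0 with hle | hge
    · set n := ⌊(S0 + r) / τ⌋₊ with hn
      have h1 : (n:ℝ) ≤ (S0 + r) / τ := Nat.floor_le (div_nonneg (by linarith) hτ.le)
      have h2 : (S0 + r) / τ < n + 1 := Nat.lt_floor_add_one _
      have h3 : -r ≤ S0 - n * τ := by
        rw [le_div_iff₀ hτ] at h1; linarith
      have h4 := h.mono h3
      have h5 := hind n
      have h6 : Real.exp (a * (S0 + r)) ≤ 2 ^ (n + 1) := by
        rw [two_pow_eq]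
        apply Real.exp_le_exp.2
        have e3 : a * (S0 + r) = Real.log 2 * ((S0 + r) / τ) := by rw [ha]; ring
        rw [e3]
        push_cast
        exact mul_le_mul_of_nonneg_left h2.le hlog2.le
      have h7 : W (-r) ≤ Real.exp (-2 ^ n) := by
        have h8 := h.nonneg (S0 - n * τ)
        nlinarith
      refine h7.trans (Real.exp_le_exp.2 ?_)
      have h9 : min (1 / 2 * Real.exp (a * S0)) (-Real.log (W 0) * Real.exp (a * S0)) *
          Real.exp (a * r) ≤ 1 / 2 * Real.exp (a * S0) * Real.exp (a * r) :=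
        mul_le_mul_of_nonneg_right (min_le_left _ _) (Real.exp_pos _).le
      have e4 : Real.exp (a * S0) * Real.exp (a * r) = Real.exp (a * (S0 + r)) := by
        rw [← Real.exp_add]; congr 1; ring
      rw [mul_assoc, e4] at h9
      rw [pow_succ] at h6
      linarith
    · have h1 := h.mono (show -r ≤ 0 by linarith)
      have h2 : W 0 = Real.exp (-(-Real.log (W 0))) := by rw [neg_neg, Real.exp_log hW0]
      refine h1.trans ?_
      rw [h2]
      apply Real.exp_le_exp.2
      have h9 : min (1 / 2 * Real.exp (a * S0)) (-Real.log (W 0) * Real.exp (a * S0)) *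
          Real.exp (a * r) ≤ -Real.log (W 0) * Real.exp (a * S0) * Real.exp (a * r) :=
        mul_le_mul_of_nonneg_right (min_le_right _ _) (Real.exp_pos _).le
      have e4 : Real.exp (a * S0) * Real.exp (a * r) = Real.exp (a * (S0 + r)) := by
        rw [← Real.exp_add]; congr 1; ring
      rw [mul_assoc, e4] at h9
      have h10 : Real.exp (a * (S0 + r)) ≤ 1 := by
        rw [Real.exp_le_one_iff]
        exact mul_nonpos_of_nonneg_of_nonpos ha0.le (by linarith)
      have h11 : -Real.log (W 0) * Real.exp (a * (S0 + r)) ≤ -Real.log (W 0) * 1 :=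
        mul_le_mul_of_nonneg_left h10 hl.le
      rw [← h2]
      linarith
  -- lower bound
  set b := 2 * Real.log 2 / τ with hb
  have hb0 : 0 < b := div_pos (by positivity) hτ
  have hlow : ∃ C, 0 < C ∧ ∀ r, 0 ≤ r → Real.exp (-C * Real.exp (b * r)) ≤ W (-r) := by
    have hev : ∀ᶠ s in atBot, τ * W (s + τ) < 1 / 2 := by
      have h1 : Tendsto (fun s => τ * W (s + τ)) atBot (𝓝 (τ * 0)) :=
        (h.tendsto_atBot.comp (tendsto_atBot_add_const_right _ τ tendsto_id)).const_mul τ
      rw [mul_zero] at h1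
      exact h1.eventually_lt_const (by norm_num)
    obtain ⟨S1, hS1, hS1'⟩ := (hev.and (eventually_le_atBot 0)).exists
    have hWS : 0 < W S1 := h.pos' hτ S1
    set L := -Real.log (W S1 / 4) with hL
    have hL0 : 0 < L := by
      have h1 : W S1 / 4 < 1 := by linarith [h.le_one S1]
      have := Real.log_neg (show 0 < W S1 / 4 by positivity) h1
      linarith
    have hLe : Real.exp (-L) = W S1 / 4 := by
      rw [hL, neg_neg, Real.exp_log (by positivity)]
    have hstep : ∀ s, s ≤ S1 → (W (s + τ / 2) / 4) ^ 2 ≤ W s / 4 := by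
      intro s hs
      have h1 : τ * W (s + τ) ≤ 1 / 2 :=
        (mul_le_mul_of_nonneg_left (h.mono (show s + τ ≤ S1 + τ by linarith)) hτ.le).trans hS1.le
      have h2 := h.left_lower hτ h1
      have h3 : 0 ≤ W (s + τ / 2) ^ 2 := sq_nonneg _
      nlinarith
    have hind : ∀ n : ℕ, Real.exp (-L * 2 ^ n) ≤ W (S1 - n * (τ / 2)) / 4 := by
      intro n
      induction n with
      | zero =>
        have e : S1 - ((0:ℕ):ℝ) * (τ / 2) = S1 := by simp
        rw [e, pow_zero, mul_one, hLe]
      | succ n ih =>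
        have h1 := hstep (S1 - (n + 1) * (τ / 2))
          (by have : 0 ≤ ((n:ℝ) + 1) * (τ / 2) := by positivity
              linarith)
        have e : S1 - ((n:ℝ) + 1) * (τ / 2) + τ / 2 = S1 - n * (τ / 2) := by ring
        rw [e] at h1
        have e2 : Real.exp (-L * 2 ^ (n + 1)) = Real.exp (-L * 2 ^ n) ^ 2 := by
          rw [← Real.exp_nat_mul]; congr 1; push_cast; ring
        rw [e2]
        push_cast
        exact (pow_le_pow_left₀ (Real.exp_pos _).le ih 2).trans h1
    refine ⟨2 * L, by positivity, ?_⟩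
    intro r hr
    rcases le_total (-r) S1 with hle | hge
    · set n := ⌈(S1 + r) / (τ / 2)⌉₊ with hn
      have h0 : 0 ≤ (S1 + r) / (τ / 2) := div_nonneg (by linarith) (by linarith)
      have h1 : (S1 + r) / (τ / 2) ≤ n := Nat.le_ceil _
      have h2 : (n:ℝ) < (S1 + r) / (τ / 2) + 1 := Nat.ceil_lt_add_one h0
      have h3 : S1 - n * (τ / 2) ≤ -r := by
        rw [div_le_iff₀ (by linarith)] at h1; linarith
      have h4 := h.mono h3
      have h5 := hind n
      have h6 : (2:ℝ) ^ n ≤ 2 * Real.exp (b * (S1 + r)) := by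
        have e5 : 2 * Real.exp (b * (S1 + r)) =
            Real.exp (Real.log 2 * ((S1 + r) / (τ / 2) + 1)) := by
          have e6 : Real.log 2 * ((S1 + r) / (τ / 2) + 1) = Real.log 2 + b * (S1 + r) := by
            rw [hb]; field_simp; ring
          rw [e6, Real.exp_add, Real.exp_log two_pos]
        rw [e5, two_pow_eq]
        exact Real.exp_le_exp.2 (mul_le_mul_of_nonneg_left h2.le hlog2.le)
      have h7 : Real.exp (b * (S1 + r)) ≤ Real.exp (b * r) :=
        Real.exp_le_exp.2 (mul_le_mul_of_nonneg_left (by linarith) hb0.le)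
      have h8 : Real.exp (-(2 * L) * Real.exp (b * r)) ≤ Real.exp (-L * 2 ^ n) := by
        apply Real.exp_le_exp.2
        have h9 : L * 2 ^ n ≤ L * (2 * Real.exp (b * r)) :=
          mul_le_mul_of_nonneg_left (by linarith) hL0.le
        linarith
      have h10 := h.nonneg (-r)
      linarith
    · have h1 := h.mono hge
      have h2 : Real.exp (-(2 * L) * Real.exp (b * r)) ≤ Real.exp (-L) := by
        apply Real.exp_le_exp.2
        have h3 : 1 ≤ Real.exp (b * r) := Real.one_le_exp (by positivity)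
        nlinarith
      rw [hLe] at h2
      linarith
  obtain ⟨c, hc, hup⟩ := hup
  obtain ⟨C, hC, hlow⟩ := hlow
  refine ⟨a, b, max (max 1 c⁻¹) C, ha0, ?_, le_max_of_le_left (le_max_left _ _), ?_⟩
  · rw [ha, hb]
    apply div_le_div_of_nonneg_right _ hτ.le
    linarith
  · intro r hr
    constructor
    · refine le_trans (Real.exp_le_exp.2 ?_) (hlow r hr)
      have : C * Real.exp (b * r) ≤ max (max 1 c⁻¹) C * Real.exp (b * r) :=
        mul_le_mul_of_nonneg_right (le_max_right _ _) (Real.exp_pos _).le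
      linarith
    · refine (hup r hr).trans (Real.exp_le_exp.2 ?_)
      have h1 : (max (max 1 c⁻¹) C)⁻¹ ≤ c := by
        have h2 : (max (max 1 c⁻¹) C)⁻¹ ≤ (c⁻¹)⁻¹ :=
          inv_anti₀ (inv_pos.2 hc) (le_max_of_le_left (le_max_right _ _))
        rwa [inv_inv] at h2
      have := mul_le_mul_of_nonneg_right h1 (Real.exp_pos (a * r)).le
      linarith

lemma tau_lt_two (h : IsWaveProfile τ W) (hτ : 0 < τ) : τ < 2 := by
  obtain ⟨s0, hs0⟩ := h.exists_D_pos hτ
  set g : ℝ → ℝ := fun s => (W (s + τ) - W s) ^ 2 with hg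
  have hgc : Continuous g := (h.cont_shift.sub h.cont).pow 2
  have hgn : ∀ s, 0 ≤ g s := fun s => sq_nonneg _
  have hc1 : Continuous fun s => W (s + τ) ^ 2 := h.cont_shift.pow 2
  have hc2 : Continuous fun s => W s ^ 2 := h.cont.pow 2
  have hc12 : Continuous fun s => W (s + τ) ^ 2 - W s ^ 2 := hc1.sub hc2
  set c := ∫ s in (s0 - 1)..(s0 + 1), g s with hc
  have hcpos : 0 < c := by
    apply intervalIntegral.integral_pos (by linarith) hgc.continuousOn (fun s _ => hgn s)
    exact ⟨s0, ⟨by linarith, by linarith⟩, pow_pos hs0 2⟩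
  have key : ∀ N, |s0| + 1 ≤ N →
      τ * W N ^ 2 - τ * W (-N + τ) ^ 2 + c ≤ 2 * (W N - W (-N)) := by
    intro N hN
    have hN1 := le_abs_self s0
    have hN2 := neg_abs_le s0
    rw [← h.energy (-N) N, ← intervalIntegral.integral_const_mul]
    have e1 : ∫ s in (-N)..N, 2 * (W (s + τ) * (W (s + τ) - W s)) =
        (∫ s in (-N)..N, (W (s + τ) ^ 2 - W s ^ 2)) + ∫ s in (-N)..N, g s := by
      rw [← intervalIntegral.integral_add (hc12.intervalIntegrable _ _)
        (hgc.intervalIntegrable _ _)]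
      apply intervalIntegral.integral_congr
      intro s _
      simp only [hg]
      ring
    have e2 : ∫ s in (-N)..N, (W (s + τ) ^ 2 - W s ^ 2) =
        (∫ s in N..(N + τ), W s ^ 2) - ∫ s in (-N)..(-N + τ), W s ^ 2 := by
      rw [intervalIntegral.integral_sub (hc1.intervalIntegrable _ _) (hc2.intervalIntegrable _ _)]
      rw [intervalIntegral.integral_comp_add_right (fun s => W s ^ 2) τ]
      have h1 : (∫ s in (-N)..(-N + τ), W s ^ 2) + ∫ s in (-N + τ)..(N + τ), W s ^ 2 =
          ∫ s in (-N)..(N + τ), W s ^ 2 :=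
        integral_add_adjacent_intervals (hc2.intervalIntegrable _ _) (hc2.intervalIntegrable _ _)
      have h2 : (∫ s in (-N)..N, W s ^ 2) + ∫ s in N..(N + τ), W s ^ 2 =
          ∫ s in (-N)..(N + τ), W s ^ 2 :=
        integral_add_adjacent_intervals (hc2.intervalIntegrable _ _) (hc2.intervalIntegrable _ _)
      linarith
    rw [e1, e2]
    have h1 : ∫ _ in N..(N + τ), W N ^ 2 ≤ ∫ s in N..(N + τ), W s ^ 2 := by
      apply intervalIntegral.integral_mono_on (by linarith)
        (continuous_const.intervalIntegrable _ _) (hc2.intervalIntegrable _ _)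
      intro t ht
      exact pow_le_pow_left₀ (h.nonneg _) (h.mono ht.1) 2
    have h2 : ∫ s in (-N)..(-N + τ), W s ^ 2 ≤ ∫ _ in (-N)..(-N + τ), W (-N + τ) ^ 2 := by
      apply intervalIntegral.integral_mono_on (by linarith)
        (hc2.intervalIntegrable _ _) (continuous_const.intervalIntegrable _ _)
      intro t ht
      exact pow_le_pow_left₀ (h.nonneg _) (h.mono ht.2) 2
    rw [intervalIntegral.integral_const, smul_eq_mul] at h1 h2
    have e3 : (N + τ - N) * W N ^ 2 = τ * W N ^ 2 := by ring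
    have e4 : (-N + τ - -N) * W (-N + τ) ^ 2 = τ * W (-N + τ) ^ 2 := by ring
    have h3 : c ≤ ∫ s in (-N)..N, g s := by
      have h4 : ∫ s in (-N)..N, g s = (∫ s in (-N)..(s0 - 1), g s) +
          (∫ s in (s0 - 1)..(s0 + 1), g s) + ∫ s in (s0 + 1)..N, g s := by
        rw [integral_add_adjacent_intervals (hgc.intervalIntegrable _ _)
          (hgc.intervalIntegrable _ _), integral_add_adjacent_intervals
          (hgc.intervalIntegrable _ _) (hgc.intervalIntegrable _ _)]
      have h5 : 0 ≤ ∫ s in (-N)..(s0 - 1), g s :=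
        intervalIntegral.integral_nonneg (by linarith) fun t _ => hgn t
      have h6 : 0 ≤ ∫ s in (s0 + 1)..N, g s :=
        intervalIntegral.integral_nonneg (by linarith) fun t _ => hgn t
      rw [h4]
      linarith
    linarith
  have hl1 : Tendsto (fun N => W (-N)) atTop (𝓝 0) := h.tendsto_atBot.comp tendsto_neg_atTop_atBot
  have hl2 : Tendsto (fun N => W (-N + τ)) atTop (𝓝 0) :=
    h.tendsto_atBot.comp (tendsto_atBot_add_const_right _ τ tendsto_neg_atTop_atBot)
  have hlim1 : Tendsto (fun N => τ * W N ^ 2 - τ * W (-N + τ) ^ 2 + c) atTop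
      (𝓝 (τ * 1 ^ 2 - τ * 0 ^ 2 + c)) :=
    (((h.tendsto_atTop.pow 2).const_mul τ).sub ((hl2.pow 2).const_mul τ)).add_const c
  have hlim2 : Tendsto (fun N => 2 * (W N - W (-N))) atTop (𝓝 (2 * (1 - 0))) :=
    (h.tendsto_atTop.sub hl1).const_mul 2
  have h8 := le_of_tendsto_of_tendsto hlim1 hlim2
    ((eventually_ge_atTop (|s0| + 1)).mono fun N hN => key N hN)
  linarith

end IsWaveProfile

end Pool.Agent.H45.LatticeWave
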