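import Pool.Agent.H45.LatticeWave.Limit
import Pool.Agent.H45.LatticeWave.Tails

namespace Pool.Agent.H45.LatticeWave

theorem main :
    (∃ (τ : ℝ) (W : ℝ → ℝ) (m : ℕ → ℝ), ConvergesToWave τ W m) ∧
    ∀ (τ : ℝ) (W : ℝ → ℝ) (m : ℕ → ℝ), ConvergesToWave τ W m →
      (1 < τ ∧ τ < 2) ∧ DoubleExpTail (fun r => W (-r)) ∧ ExpTail (fun r => 1 - W r) := by
  refine ⟨?_, ?_⟩
  · obtain ⟨τ, m, h⟩ := exists_wave
    exact ⟨τ, W, m, h⟩
  · intro τ W m h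
    exact ⟨⟨h.profile.one_lt_tau h.tau_pos, h.profile.tau_lt_two h.tau_pos⟩,
      h.profile.doubleExpTail h.tau_pos, h.profile.expTail h.tau_pos⟩

end Pool.Agent.H45.LatticeWave
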